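import Pool.Agent.Work.MP_55ff09_co.PL.Base

/-!
# MP_55ff09_co, block CL (clique plus linear forest): definitions

Paper proof: note 4703. `Touch`, `Anti`, `DegLe`, `IsInducedMinor` are in `Pool.Agent.IM55`;
`opN` (outer neighbourhood), `clN`, `Cr` (connector), `Fm`, `IP` (induced path), `PC`, `rng` are in
`Pool.Agent.IM55.PL`.
-/

set_option autoImplicit false

namespace Pool.Agent.IM55.CL

open SimpleGraph Pool.Agent.IM55 Pool.Agent.IM55.PL

variable {V : Type}

/-- the branch sets `A i`, `i ∈ I`, of a complete graph -/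
structure KM (G : SimpleGraph V) (I : Finset ℕ) (A : ℕ → Set V) : Prop where
  conn : ∀ i ∈ I, (G.induce (A i)).Connected
  dis : ∀ i ∈ I, ∀ j ∈ I, i ≠ j → Disjoint (A i) (A j)
  adj : ∀ i ∈ I, ∀ j ∈ I, i ≠ j → Touch G (A i) (A j)

/-- `S` is small: some branch set is disjoint from `S` and its neighbourhood -/
def Sm (G : SimpleGraph V) (I : Finset ℕ) (A : ℕ → Set V) (S : Set V) : Prop :=
  ∃ i ∈ I, Anti G S (A i)

/-- the union of the branch sets `A d`, `d ∈ D` -/
def UA (A : ℕ → Set V) (D : Finset ℕ) : Set V := {v | ∃ d ∈ D, v ∈ A d}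

open Classical in
/-- the order of `S` when the branch sets `A d`, `d ∈ D`, are contracted: number of vertices of the
outer boundary outside these branch sets plus number of these branch sets meeting the boundary -/
noncomputable def fo (G : SimpleGraph V) (A : ℕ → Set V) (D : Finset ℕ) (S : Set V) : ℕ :=
  (opN G S \ UA A D).ncard + (D.filter fun d => (A d ∩ opN G S).Nonempty).card

/-- the clique on `Fin a` together with the path on `Fin l`; `i` in the clique and `x` on the path
are adjacent iff `E i x` -/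
def HP (a l : ℕ) (E : ℕ → ℕ → Prop) : SimpleGraph (Fin a ⊕ Fin l) where
  Adj p r := match p, r with
    | Sum.inl i, Sum.inl j => i ≠ j
    | Sum.inl i, Sum.inr x => E i x
    | Sum.inr x, Sum.inl i => E i x
    | Sum.inr x, Sum.inr y => (x : ℕ) + 1 = y ∨ (y : ℕ) + 1 = x
  symm := ⟨by
    rintro (i | x) (j | y) h
    · exact fun e => h e.symm
    · exact h
    · exact h
    · exact h.symm⟩
  loopless := ⟨by
    rintro (i | x) h
    · exact h rfl
    · simp at h⟩

/-- `s` tails on the induced path `w 0, ..., w l`: connected sets disjoint from the path, pairwise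
disjoint, pairwise adjacent, each touches the path, and the vertices touched by `T j` come before
those touched by `T j'` if `j < j'` -/
structure Comb (G : SimpleGraph V) (s : ℕ) (w : ℕ → V) (l : ℕ) (T : ℕ → Set V) : Prop where
  ip : IP G w l
  conn : ∀ j < s, (G.induce (T j)).Connected
  dis : ∀ j < s, ∀ j' < s, j ≠ j' → Disjoint (T j) (T j')
  adj : ∀ j < s, ∀ j' < s, j ≠ j' → Touch G (T j) (T j')
  off : ∀ j < s, Disjoint (T j) (rng w l)
  foot : ∀ j < s, ∃ p ≤ l, Touch G {w p} (T j)
  ord : ∀ j < s, ∀ j' < s, j < j' → ∀ p ≤ l, ∀ p' ≤ l, Touch G {w p} (T j) →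
    Touch G {w p'} (T j') → p < p'

end Pool.Agent.IM55.CL
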