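import Pool.Agent.Work.MP_55ff09_co.CL.Stmts

/-!
# MP_55ff09_co, block CL, item ANT: `fo` and more contracted sets (helper17)
-/

set_option autoImplicit false

namespace Pool.Agent.IM55.CL

open SimpleGraph Pool.Agent.IM55 Pool.Agent.IM55.PL

namespace XANT

variable {V : Type}

theorem mem_UA_mono {A : ℕ → Set V} {D E : Finset ℕ} (h : D ⊆ E) {v : V} (hv : v ∈ UA A D) :
    v ∈ UA A E := by
  obtain ⟨d, hd, hvd⟩ := hv
  exact ⟨d, h hd, hvd⟩

/-- a branch set with a vertex in the boundary of `S' ⊆ S` meets the boundary of `S` -/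
theorem meets [Finite V] (G : SimpleGraph V) (I : Finset ℕ) (A : ℕ → Set V) (D : Finset ℕ)
    (S S' : Set V) (hKM : KM G I A) (hDI : D ⊆ I) (hS : Disjoint S (UA A D))
    (hfo : fo G A D S < D.card) (hSS : S' ⊆ S) (e : ℕ) (heI : e ∈ I) (heD : e ∉ D)
    (h : (A e ∩ opN G S').Nonempty) : (A e ∩ opN G S).Nonempty := by
  classical
  obtain ⟨v, hvA, -, s, hs, hadj⟩ := h
  by_cases hvS : v ∈ S
  · by_contra hne
    rw [Set.not_nonempty_iff_eq_empty] at hne
    have hsub : A e ⊆ S := by
      refine conn_subset (hKM.conn e heI) ⟨v, hvA, hvS⟩ ?_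
      intro x hx hxS y hy hxy
      by_contra hyS
      have hmem : y ∈ A e ∩ opN G S := ⟨hy, hyS, x, hxS, hxy⟩
      rw [hne] at hmem
      exact hmem
    have hfull : D.filter (fun d => (A d ∩ opN G S).Nonempty) = D := by
      rw [Finset.filter_eq_self]
      intro d hd
      have hde : d ≠ e := fun h => heD (h ▸ hd)
      obtain ⟨x, hx, y, hy, hxy⟩ := hKM.adj d (hDI hd) e heI hde
      have hne' : x ≠ y := fun h =>
        Set.disjoint_left.mp (hKM.dis d (hDI hd) e heI hde) hx (h ▸ hy)
      have hadj' : G.Adj x y := by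
        rcases hxy with h | h
        · exact absurd h hne'
        · exact h
      refine ⟨x, hx, ?_, y, hsub hy, hadj'.symm⟩
      intro hxS
      exact Set.disjoint_left.mp hS hxS ⟨d, hd, hx⟩
    have h1 : fo G A D S = (opN G S \ UA A D).ncard +
        (D.filter fun d => (A d ∩ opN G S).Nonempty).card := rfl
    rw [hfull] at h1
    omega
  · exact ⟨v, hvA, hvS, s, hSS hs, hadj⟩

end XANT

open XANT in
theorem i_ANT : S_ANT := by
  classical
  intro V _ G I A D E R₀ S hKM hDE hEI hR hRS hS hfo
  have hDI : D ⊆ I := hDE.trans hEI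
  set S' : Set V := S \ UA A E with hS'
  have hSS : S' ⊆ S := Set.sdiff_subset
  refine ⟨S', ?_, ?_, ?_⟩
  · intro x hx
    refine ⟨hRS hx, ?_⟩
    rintro ⟨e, he, hxe⟩
    exact (hR e he x hx x hxe).1 rfl
  · exact Set.disjoint_sdiff_left
  · have h0 : fo G A E S' = (opN G S' \ UA A E).ncard +
        (E.filter fun d => (A d ∩ opN G S').Nonempty).card := rfl
    have h1 : fo G A D S = (opN G S \ UA A D).ncard +
        (D.filter fun d => (A d ∩ opN G S).Nonempty).card := rfl
    set P : Set V := opN G S \ UA A D with hP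
    set U : Set V := UA A (E \ D) with hU
    have h2 : (P ∩ U).ncard + (P \ U).ncard = P.ncard :=
      Set.ncard_inter_add_ncard_sdiff_eq_ncard P U (Set.toFinite P)
    have h3 : (opN G S' \ UA A E).ncard ≤ (P \ U).ncard := by
      refine Set.ncard_le_ncard ?_ (Set.toFinite _)
      rintro v ⟨⟨hv1, s, hs, hadj⟩, hv2⟩
      have hvS : v ∉ S := fun h => hv1 ⟨h, hv2⟩
      exact ⟨⟨⟨hvS, s, hSS hs, hadj⟩, fun h => hv2 (mem_UA_mono hDE h)⟩,
        fun h => hv2 (mem_UA_mono Finset.sdiff_subset h)⟩
    set F : Finset ℕ := (E \ D).filter fun d => (A d ∩ opN G S').Nonempty with hF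
    have h4 : (E.filter fun d => (A d ∩ opN G S').Nonempty).card ≤
        (D.filter fun d => (A d ∩ opN G S).Nonempty).card + F.card := by
      refine le_trans (Finset.card_le_card ?_) (Finset.card_union_le _ _)
      intro e he
      rw [Finset.mem_filter] at he
      rw [Finset.mem_union]
      by_cases heD : e ∈ D
      · left
        rw [Finset.mem_filter]
        refine ⟨heD, ?_⟩
        obtain ⟨v, hv, -, s, hs, hadj⟩ := he.2
        refine ⟨v, hv, ?_, s, hSS hs, hadj⟩
        intro hvS
        exact Set.disjoint_left.mp hS hvS ⟨e, heD, hv⟩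
      · right
        rw [hF, Finset.mem_filter, Finset.mem_sdiff]
        exact ⟨⟨he.1, heD⟩, he.2⟩
    have h5 : F.card ≤ (P ∩ U).ncard := by
      have hex : ∀ e ∈ F, ∃ x, x ∈ A e ∩ opN G S := by
        intro e he
        rw [hF, Finset.mem_filter, Finset.mem_sdiff] at he
        exact meets G I A D S S' hKM hDI hS hfo hSS e (hEI he.1.1) he.1.2 he.2
      rcases F.eq_empty_or_nonempty with hF0 | ⟨e0, he0⟩
      · rw [hF0, Finset.card_empty]
        exact Nat.zero_le _
      obtain ⟨v0, _⟩ := hex e0 he0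
      haveI : Nonempty V := ⟨v0⟩
      choose! x hx using hex
      rw [← Set.ncard_coe_finset F]
      refine Set.ncard_le_ncard_of_injOn x ?_ ?_ (Set.toFinite _)
      · intro e he
        have he' := he
        rw [Finset.mem_coe, hF, Finset.mem_filter, Finset.mem_sdiff] at he'
        have hxe := hx e he
        refine ⟨⟨hxe.2, ?_⟩, ⟨e, Finset.mem_sdiff.mpr he'.1, hxe.1⟩⟩
        rintro ⟨d, hd, hxd⟩
        have hne : e ≠ d := fun h => he'.1.2 (h ▸ hd)
        exact Set.disjoint_left.mp (hKM.dis e (hEI he'.1.1) d (hDI hd) hne) hxe.1 hxd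
      · intro e he e' he' hee
        by_contra hne
        have h6 := he
        have h7 := he'
        rw [Finset.mem_coe, hF, Finset.mem_filter, Finset.mem_sdiff] at h6 h7
        have h8 := (hx e he).1
        have h9 := (hx e' he').1
        rw [← hee] at h9
        exact Set.disjoint_left.mp (hKM.dis e (hEI h6.1.1) e' (hEI h7.1.1) hne) h8 h9
    rw [h0, h1]
    omega

end Pool.Agent.IM55.CL
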