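import Pool.Agent.Work.MP_55ff09_co.CL.Stmts

/-!
# MP_55ff09_co, block CL, item ASM: assembly (helper63)
-/

set_option autoImplicit false

namespace Pool.Agent.IM55.CL

open SimpleGraph Pool.Agent.IM55 Pool.Agent.IM55.PL

namespace XASM

variable {V : Type} {G : SimpleGraph V}

/-- a nonempty union of connected sets which touch each other pairwise -/
theorem conn_un {l : ℕ} (P : ℕ → Prop) (S : ℕ → Set V) (hne : ∃ x < l, P x)
    (hc : ∀ x < l, P x → (G.induce (S x)).Connected)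
    (ht : ∀ x < l, ∀ y < l, P x → P y → x ≠ y → Touch G (S x) (S y)) :
    (G.induce {v | ∃ x < l, P x ∧ v ∈ S x}).Connected := by
  obtain ⟨x₀, hx₀, hP₀⟩ := hne
  have h := conn_iUnion (G := G) (X := S x₀) (fun x : {x : ℕ // x < l ∧ P x} => S x.1)
    (hc x₀ hx₀ hP₀) (fun x => hc x.1 x.2.1 x.2.2) (fun x => by
      by_cases e : x₀ = x.1
      · obtain ⟨⟨u, hu⟩⟩ := (hc x₀ hx₀ hP₀).nonempty
        exact ⟨u, hu, u, by rw [← e]; exact hu, Or.inl rfl⟩
      · exact ht x₀ hx₀ x.1 x.2.1 hP₀ x.2.2 e)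
  have e : S x₀ ∪ ⋃ x : {x : ℕ // x < l ∧ P x}, S x.1 = {v | ∃ x < l, P x ∧ v ∈ S x} := by
    ext v
    constructor
    · rintro (hv | hv)
      · exact ⟨x₀, hx₀, hP₀, hv⟩
      · obtain ⟨x, hx⟩ := Set.mem_iUnion.1 hv
        exact ⟨x.1, x.2.1, x.2.2, hx⟩
    · rintro ⟨x, hx, hP, hv⟩
      exact Or.inr (Set.mem_iUnion.2 ⟨⟨x, hx, hP⟩, hv⟩)
  rw [e] at h
  exact h

/-- the cut points -/
theorem cuts {s l' a l : ℕ} {w : ℕ → V} {T : ℕ → Set V} (ha : 1 ≤ a) (hs : s = l * a)
    (h : Comb G s w l' T) :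
    ∃ b : ℕ → ℕ, b l = l' + 1 ∧
      (∀ x < l, ∀ i < a, ∀ p ≤ l', Touch G {w p} (T (x * a + i)) → b x ≤ p ∧ p < b (x + 1)) := by
  classical
  have hlt : ∀ x < l, ∀ i < a, x * a + i < s := fun x hx i hi => by
    rw [hs]
    calc x * a + i < x * a + a := by omega
      _ = (x + 1) * a := by ring
      _ ≤ l * a := Nat.mul_le_mul_right a hx
  have hex : ∀ x < l, ∃ p, p ≤ l' ∧ Touch G {w p} (T (x * a)) := fun x hx => by
    obtain ⟨p, hp, h1⟩ := h.foot (x * a) (by simpa using hlt x hx 0 (by omega))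
    exact ⟨p, hp, h1⟩
  refine ⟨fun x => if x = 0 then (if l = 0 then l' + 1 else 0) else if hx : x < l then
    Nat.find (hex x hx) else l' + 1, ?_, ?_⟩
  · by_cases hl : l = 0
    · simp [hl]
    · simp [hl]
  · intro x hx i hi p hp hT
    have hl : l ≠ 0 := by omega
    constructor
    · by_cases hx0 : x = 0
      · simp [hx0, hl]
      · simp only [hx0, if_false, hx, dif_pos]
        rcases Nat.eq_zero_or_pos i with hi0 | hi0
        · subst hi0
          exact Nat.find_min' _ ⟨hp, by simpa using hT⟩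
        · obtain ⟨h1, h2⟩ := Nat.find_spec (hex x hx)
          exact (h.ord (x * a) (by simpa using hlt x hx 0 (by omega)) (x * a + i) (hlt x hx i hi)
            (by omega) _ h1 p hp h2 hT).le
    · simp only [Nat.succ_ne_zero, if_false]
      split_ifs with h3
      · obtain ⟨h1, h2⟩ := Nat.find_spec (hex (x + 1) h3)
        refine h.ord (x * a + i) (hlt x hx i hi) ((x + 1) * a)
          (by simpa using hlt (x + 1) h3 0 (by omega)) ?_ p hp _ h1 hT h2
        calc x * a + i < x * a + a := by omega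
          _ = (x + 1) * a := by ring
      · omega

/-- the tails of different indices -/
theorem idx_ne {a x y i j : ℕ} (hi : i < a) (hj : j < a) (h : i ≠ j) : x * a + i ≠ y * a + j := by
  intro e
  have h1 : (x * a + i) % a = (y * a + j) % a := by rw [e]
  rw [Nat.mul_add_mod_self_right, Nat.mul_add_mod_self_right, Nat.mod_eq_of_lt hi,
    Nat.mod_eq_of_lt hj] at h1
  exact h h1

theorem idx_ne' {a x y i : ℕ} (ha : 1 ≤ a) (h : x ≠ y) : x * a + i ≠ y * a + i := by
  intro e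
  exact h (Nat.eq_of_mul_eq_mul_right ha (Nat.add_right_cancel e))

end XASM

open XASM in
theorem i_ASM : S_ASM := by
  intro V _ G a l l' E w T ha hl hE h
  obtain ⟨b, hbl, hb⟩ := cuts ha rfl h
  have hlt : ∀ x < l, ∀ i < a, x * a + i < l * a := fun x hx i hi => by
    calc x * a + i < x * a + a := by omega
      _ = (x + 1) * a := by ring
      _ ≤ l * a := Nat.mul_le_mul_right a hx
  have hstep : ∀ x < l, b x < b (x + 1) := fun x hx => by
    obtain ⟨p, hp, h1⟩ := h.foot (x * a + 0) (hlt x hx 0 (by omega))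
    obtain ⟨h2, h3⟩ := hb x hx 0 (by omega) p hp h1
    exact lt_of_le_of_lt h2 h3
  have hmono : ∀ x y, x ≤ y → y ≤ l → b x ≤ b y := by
    intro x y hxy
    induction y, hxy using Nat.le_induction with
    | base => exact fun _ => le_rfl
    | succ y hy ih => exact fun h1 => (ih (by omega)).trans (hstep y (by omega)).le
  have hbound : ∀ x ≤ l, b x ≤ l' + 1 := fun x hx => hbl ▸ hmono x l hx le_rfl
  -- the index of the interval is determined
  have huniq : ∀ x < l, ∀ y < l, ∀ p, b x ≤ p → p < b (x + 1) → b y ≤ p → p < b (y + 1) → x = y := by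
    intro x hx y hy p h1 h2 h3 h4
    rcases lt_trichotomy x y with h5 | h5 | h5
    · have := hmono (x + 1) y h5 hy.le
      omega
    · exact h5
    · have := hmono (y + 1) x h5 hx.le
      omega
  have hseg : ∀ x < l, b x ≤ b (x + 1) - 1 ∧ b (x + 1) - 1 ≤ l' ∧ 1 ≤ b (x + 1) := fun x hx => by
    have h1 := hstep x hx
    have h2 := hbound (x + 1) hx
    omega
  -- an edge instead of a touch
  have hoff : ∀ j < l * a, ∀ p ≤ l', Touch G {w p} (T j) → ∃ v ∈ T j, G.Adj (w p) v := by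
    rintro j hj p hp ⟨u, hu, v, hv, h1⟩
    rw [Set.mem_singleton_iff] at hu
    subst hu
    rcases h1 with h1 | h1
    · exact absurd ⟨p, hp, h1⟩ (Set.disjoint_left.1 (h.off j hj) hv)
    · exact ⟨v, hv, h1⟩
  have hTT : ∀ j < l * a, ∀ j' < l * a, j ≠ j' → ∃ u ∈ T j, ∃ v ∈ T j', G.Adj u v := by
    intro j hj j' hj' hne
    obtain ⟨u, hu, v, hv, h1⟩ := h.adj j hj j' hj' hne
    rcases h1 with h1 | h1
    · exact absurd (h1 ▸ hv) (Set.disjoint_left.1 (h.dis j hj j' hj' hne) hu)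
    · exact ⟨u, hu, v, hv, h1⟩
  refine ⟨Sum.elim (fun i : Fin a => {v | ∃ x < l, E i x ∧ v ∈ T (x * a + i)})
    (fun x : Fin l => {v | ∃ p, b x ≤ p ∧ p ≤ b (x + 1) - 1 ∧ w p = v}), ?_, ?_, ?_⟩
  · rintro (i | x)
    · refine conn_un (fun x => E i x) (fun x => T (x * a + i)) (hE i i.2) (fun x hx _ =>
        h.conn _ (hlt x hx i i.2)) fun x hx y hy _ _ hxy =>
          h.adj _ (hlt x hx i i.2) _ (hlt y hy i i.2) (idx_ne' ha hxy)
    · exact ip_seg_conn h.ip (hseg x x.2).1 (hseg x x.2).2.1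
  · rintro (i | x) (j | y) hne
    · have hij : (i : ℕ) ≠ j := fun e => hne (congrArg Sum.inl (Fin.ext e))
      refine Set.disjoint_left.2 ?_
      rintro v ⟨x, hx, -, hv⟩ ⟨y, hy, -, hv'⟩
      exact Set.disjoint_left.1 (h.dis _ (hlt x hx i i.2) _ (hlt y hy j j.2)
        (idx_ne i.2 j.2 hij)) hv hv'
    · refine Set.disjoint_left.2 ?_
      rintro v ⟨x, hx, -, hv⟩ ⟨p, -, hp, hpv⟩
      exact Set.disjoint_left.1 (h.off _ (hlt x hx i i.2)) hv
        ⟨p, hp.trans (hseg y y.2).2.1, hpv⟩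
    · refine Set.disjoint_left.2 ?_
      rintro v ⟨p, -, hp, hpv⟩ ⟨y, hy, -, hv⟩
      exact Set.disjoint_left.1 (h.off _ (hlt y hy j j.2)) hv
        ⟨p, hp.trans (hseg x x.2).2.1, hpv⟩
    · have hxy : (x : ℕ) ≠ y := fun e => hne (congrArg Sum.inr (Fin.ext e))
      refine Set.disjoint_left.2 ?_
      rintro v ⟨p, h1, h2, h3⟩ ⟨p', h1', h2', h3'⟩
      obtain ⟨-, s2, s3⟩ := hseg x x.2
      obtain ⟨-, s2', s3'⟩ := hseg y y.2
      have e : p = p' := h.ip.inj p (by omega) p' (by omega) (h3.trans h3'.symm)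
      subst e
      exact hxy (huniq x x.2 y y.2 p h1 (by omega) h1' (by omega))
  · -- edges between a clique vertex and a path vertex
    have hix : ∀ (i : Fin a) (x : Fin l), E i x ↔
        ∃ u ∈ {v | ∃ x < l, E i x ∧ v ∈ T (x * a + i)},
          ∃ v ∈ {v | ∃ p, b x ≤ p ∧ p ≤ b (x + 1) - 1 ∧ w p = v}, G.Adj u v := by
      intro i x
      constructor
      · intro hEx
        obtain ⟨p, hp, h1⟩ := h.foot _ (hlt x x.2 i i.2)
        obtain ⟨h2, h3⟩ := hb x x.2 i i.2 p hp h1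
        obtain ⟨v, hv, h4⟩ := hoff _ (hlt x x.2 i i.2) p hp h1
        exact ⟨v, ⟨x, x.2, hEx, hv⟩, w p, ⟨p, h2, by omega, rfl⟩, h4.symm⟩
      · rintro ⟨u, ⟨y, hy, hEy, hu⟩, v, ⟨p, h1, h2, rfl⟩, h3⟩
        obtain ⟨-, s2, s3⟩ := hseg x x.2
        obtain ⟨h4, h5⟩ := hb y hy i i.2 p (by omega) ⟨w p, rfl, u, hu, Or.inr h3.symm⟩
        have e : (x : ℕ) = y := huniq x x.2 y hy p h1 (by omega) h4 h5
        rw [e]
        exact hEy
    rintro (i | x) (j | y) hne
    · have hij : (i : ℕ) ≠ j := fun e => hne (congrArg Sum.inl (Fin.ext e))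
      have hij' : i ≠ j := fun e => hne (congrArg Sum.inl e)
      refine ⟨fun _ => ?_, fun _ => hij'⟩
      obtain ⟨x, hx, hEx⟩ := hE i i.2
      obtain ⟨y, hy, hEy⟩ := hE j j.2
      obtain ⟨u, hu, v, hv, h1⟩ := hTT _ (hlt x hx i i.2) _ (hlt y hy j j.2)
        (idx_ne i.2 j.2 hij)
      exact ⟨u, ⟨x, hx, hEx, hu⟩, v, ⟨y, hy, hEy, hv⟩, h1⟩
    · exact hix i y
    · refine Iff.trans (hix j x) ⟨?_, ?_⟩
      · rintro ⟨u, hu, v, hv, h1⟩
        exact ⟨v, hv, u, hu, h1.symm⟩
      · rintro ⟨u, hu, v, hv, h1⟩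
        exact ⟨v, hv, u, hu, h1.symm⟩
    · have hxy : (x : ℕ) ≠ y := fun e => hne (congrArg Sum.inr (Fin.ext e))
      have hxl := x.2
      have hyl := y.2
      obtain ⟨r1, s2, s3⟩ := hseg x x.2
      obtain ⟨r1', s2', s3'⟩ := hseg y y.2
      constructor
      · rintro (h1 | h1)
        · have h2 : G.Adj (w (b (x + 1) - 1)) (w (b (x + 1) - 1 + 1)) := h.ip.adj _ (by
            have := hstep y y.2
            have := hbound (y + 1) y.2
            rw [← h1] at this
            rw [← h1] at r1' s2'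
            omega)
          refine ⟨w (b (x + 1) - 1), ⟨_, r1, le_rfl, rfl⟩, w (b (x + 1) - 1 + 1),
            ⟨_, ?_, ?_, rfl⟩, h2⟩
          · rw [← h1]
            omega
          · rw [← h1] at r1' ⊢
            omega
        · have h2 : G.Adj (w (b (y + 1) - 1)) (w (b (y + 1) - 1 + 1)) := h.ip.adj _ (by
            rw [← h1] at r1 s2
            omega)
          refine ⟨w (b (y + 1) - 1 + 1), ⟨_, ?_, ?_, rfl⟩, w (b (y + 1) - 1),
            ⟨_, r1', le_rfl, rfl⟩, h2.symm⟩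
          · rw [← h1]
            omega
          · rw [← h1] at r1 ⊢
            omega
      · rintro ⟨u, ⟨p, h1, h2, rfl⟩, v, ⟨p', h1', h2', rfl⟩, h3⟩
        rcases lt_or_gt_of_ne hxy with h4 | h4
        · left
          by_contra h5
          have h6 := hmono (x + 1) (y - 1) (by omega) (by omega)
          have h7 := hstep (y - 1) (by omega)
          rw [Nat.sub_add_cancel (by omega)] at h7
          rcases h.ip.ind p (by omega) p' (by omega) h3 with h8 | h8 <;> omega
        · right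
          by_contra h5
          have h6 := hmono (y + 1) (x - 1) (by omega) (by omega)
          have h7 := hstep (x - 1) (by omega)
          rw [Nat.sub_add_cancel (by omega)] at h7
          rcases h.ip.ind p (by omega) p' (by omega) h3 with h8 | h8 <;> omega

end Pool.Agent.IM55.CL
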