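import Pool.Agent.Work.MP_55ff09_co.CL.Stmts

/-!
# MP_55ff09_co, block CL: item BAL (the ball lemma)
-/

set_option autoImplicit false

namespace Pool.Agent.IM55.CL

open SimpleGraph Pool.Agent.IM55 Pool.Agent.IM55.PL

namespace XBAL

theorem pow_eq (k : ℕ) : 2 ^ (2 * k) = 4 ^ k := by
  rw [pow_mul]
  norm_num

theorem two_mul_le (k : ℕ) : 2 * k ≤ k * 4 ^ k := by
  rcases Nat.eq_zero_or_pos k with h | h
  · subst h
    simp
  · have h1 : 4 ^ 1 ≤ 4 ^ k := Nat.pow_le_pow_right (by norm_num) h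
    nlinarith

end XBAL

theorem i_BAL (h1 : S_BLI) : S_BAL := by
  intro V _ G I A k v hK hk
  have h2 : 2 * k < I.card := lt_of_le_of_lt (XBAL.two_mul_le k) hk
  have h3 : k * 2 ^ (2 * k) < I.card := by
    rw [XBAL.pow_eq]
    exact hk
  obtain ⟨W, hW1, hW2, hW3⟩ := h1 G I A k (2 * k) {v} ∅ hK h2 h3 (conn_singleton v)
    (by simp) (fun R _ _ _ => Nat.le_add_left _ _)
  rw [XBAL.pow_eq] at hW2
  exact ⟨W, hW1, hW2, fun R hR1 hR2 hR3 hR4 => hW3 R hR1 hR2 (Set.singleton_subset_iff.2 hR3)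
    (Set.empty_subset _) hR4⟩

end Pool.Agent.IM55.CL
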