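import Pool.Agent.Work.MP_55ff09_co.CL.Stmts

/-!
# MP_55ff09_co, block CL, item BLI: the ball lemma, induction
-/

set_option autoImplicit false

namespace Pool.Agent.IM55.CL

open SimpleGraph Pool.Agent.IM55 Pool.Agent.IM55.PL

namespace XBLI

variable {V : Type} {G : SimpleGraph V}

theorem sm_mono {I : Finset ℕ} {A : ℕ → Set V} {S T : Set V} (h : S ⊆ T) (hT : Sm G I A T) :
    Sm G I A S := by
  obtain ⟨i, hi, ha⟩ := hT
  exact ⟨i, hi, ha.mono h subset_rfl⟩

theorem opN_union (S T : Set V) : opN G (S ∪ T) ⊆ opN G S ∪ opN G T := by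
  rintro y ⟨hy, x, hx, h⟩
  rcases hx with hx | hx
  · exact Or.inl ⟨fun h' => hy (Or.inl h'), x, hx, h⟩
  · exact Or.inr ⟨fun h' => hy (Or.inr h'), x, hx, h⟩

theorem card_split [Finite V] {S Y : Set V} (h : Y ⊆ S) :
    (S \ Y).ncard + Y.ncard = S.ncard :=
  Set.ncard_diff_add_ncard_of_subset h

theorem disj_of_opN {R Y : Set V} (h : Y ⊆ opN G R) : Disjoint R Y :=
  Set.disjoint_left.2 fun _ hx hy => (h hy).1 hx

/-- a connected set which meets `S` and avoids `opN G S` is inside `S` -/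
theorem sub_of {R S : Set V} (hR : (G.induce R).Connected) (hm : (R ∩ S).Nonempty)
    (hd : Disjoint R (opN G S)) : R ⊆ S := by
  refine conn_subset hR hm fun u _ huS v hv ha => ?_
  by_contra hvS
  exact Set.disjoint_left.1 hd hv ⟨hvS, u, huS, ha⟩

/-- the good sets -/
def Gd (G : SimpleGraph V) (I : Finset ℕ) (A : ℕ → Set V) (k : ℕ) (X Y R : Set V) : Prop :=
  (G.induce R).Connected ∧ Sm G I A R ∧ X ⊆ R ∧ Y ⊆ opN G R ∧ (opN G R).ncard ≤ k

theorem empty_case [Finite V] (I : Finset ℕ) (A : ℕ → Set V) (k m : ℕ) (X Y : Set V)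
    (hI : 2 * k < I.card) (h : ¬ ∃ R, Gd G I A k X Y R) :
    ∃ W, Sm G I A W ∧ (opN G W).ncard ≤ m ∧ ∀ R, Gd G I A k X Y R → R ⊆ W := by
  refine ⟨∅, ?_, ?_, fun R hR => absurd ⟨R, hR⟩ h⟩
  · obtain ⟨i, hi⟩ : I.Nonempty := Finset.card_pos.1 (by omega)
    exact ⟨i, hi, fun x hx => absurd hx (Set.notMem_empty x)⟩
  · have e : opN G (∅ : Set V) = ∅ := by
      ext y
      constructor
      · rintro ⟨-, x, hx, -⟩
        exact absurd hx (Set.notMem_empty x)
      · intro h'
        exact absurd h' (Set.notMem_empty y)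
    rw [e, Set.ncard_empty]
    exact Nat.zero_le _

theorem core [Finite V] (h1 : S_SMU) (h2 : S_SUB) (h3 : S_CMP) (I : Finset ℕ) (A : ℕ → Set V)
    (k : ℕ) (hK : KM G I A) (hI : 2 * k < I.card) (n : ℕ) : ∀ X Y : Set V,
    k * 2 ^ n < I.card → (G.induce X).Connected → Y.ncard ≤ k →
    (∀ R, X ⊆ R → Disjoint R Y → Sm G I A R →
      2 * k ≤ (opN G R \ Y).ncard + 2 * Y.ncard + n) →
    ∃ W, Sm G I A W ∧ (opN G W).ncard ≤ k * 2 ^ n ∧ ∀ R, Gd G I A k X Y R → R ⊆ W := by
  induction n with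
  | zero =>
    intro X Y _ hX hY hR
    by_cases hg : ∃ R, Gd G I A k X Y R
    · obtain ⟨R, hc, hs, hXR, hYR, hk⟩ := hg
      have hsplit := card_split hYR
      have hlow := hR R hXR (disj_of_opN hYR) hs
      have hYe : Y = opN G R :=
        Set.eq_of_subset_of_ncard_le hYR (by omega)
      refine ⟨R, hs, by omega, fun R' hR' => ?_⟩
      obtain ⟨hc', -, hXR', hYR', -⟩ := hR'
      obtain ⟨⟨x, hx⟩⟩ := hX.nonempty
      refine sub_of hc' ⟨x, hXR' hx, hXR hx⟩ ?_
      rw [← hYe]
      exact disj_of_opN hYR'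
    · exact empty_case I A k _ X Y hI hg
  | succ n ih =>
    intro X Y hIn hX hY hR
    by_cases hg : ∃ R, Gd G I A k X Y R
    swap
    · exact empty_case I A k _ X Y hI hg
    have hpow : k * 2 ^ (n + 1) = k * 2 ^ n + k * 2 ^ n := by ring
    obtain ⟨⟨x₀, hx₀⟩⟩ := hX.nonempty
    -- the minimum
    obtain ⟨lam, ⟨R₀, hR₀X, hR₀Y, hR₀s, hR₀l⟩, hmin⟩ : ∃ lam, (∃ R, X ⊆ R ∧ Disjoint R Y ∧
        Sm G I A R ∧ (opN G R \ Y).ncard = lam) ∧
        ∀ R, X ⊆ R → Disjoint R Y → Sm G I A R → lam ≤ (opN G R \ Y).ncard := by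
      classical
      obtain ⟨R, hc, hs, hXR, hYR, hk⟩ := hg
      have hex : ∃ lam, ∃ R, X ⊆ R ∧ Disjoint R Y ∧ Sm G I A R ∧ (opN G R \ Y).ncard = lam :=
        ⟨_, R, hXR, disj_of_opN hYR, hs, rfl⟩
      refine ⟨Nat.find hex, Nat.find_spec hex, fun R' h4 h5 h6 => ?_⟩
      exact Nat.find_min' hex ⟨R', h4, h5, h6, rfl⟩
    -- the connected sets of minimum order
    obtain ⟨R₁, hR₁R, hR₁c, hR₁X, hR₁o⟩ := h3 G R₀ X hX hR₀X
    obtain ⟨P, hP⟩ : ∃ P : Set (Set V), P = {R | (G.induce R).Connected ∧ X ⊆ R ∧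
      Disjoint R Y ∧ Sm G I A R ∧ (opN G R \ Y).ncard = lam} := ⟨_, rfl⟩
    have hPn : P.Nonempty := by
      refine ⟨R₁, ?_⟩
      rw [hP]
      have h4 := sm_mono hR₁R hR₀s
      have h5 : Disjoint R₁ Y := hR₀Y.mono_left hR₁R
      refine ⟨hR₁c, hR₁X, h5, h4, le_antisymm ?_ (hmin R₁ hR₁X h5 h4)⟩
      rw [← hR₀l]
      exact Set.ncard_le_ncard (Set.diff_subset_diff_left hR₁o)
    obtain ⟨Rs, hRsP, hmax⟩ := Set.exists_max_image P Set.ncard (Set.toFinite P) hPn
    rw [hP] at hRsP
    obtain ⟨hsc, hsX, hsY, hss, hsl⟩ := hRsP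
    have hlamle : ∀ R, Gd G I A k X Y R → lam + Y.ncard ≤ k := by
      rintro R ⟨-, hs, hXR, hYR, hk⟩
      have h4 := card_split hYR
      have h5 := hmin R hXR (disj_of_opN hYR) hs
      omega
    rcases Nat.eq_zero_or_pos lam with hl0 | hlpos
    · -- `lam = 0`
      have hsub : opN G Rs ⊆ Y := by
        rw [hl0] at hsl
        have := (Set.ncard_eq_zero (Set.toFinite _)).1 hsl
        exact Set.diff_eq_empty.1 this
      refine ⟨Rs, hss, ?_, ?_⟩
      · have h4 : (opN G Rs).ncard ≤ Y.ncard := Set.ncard_le_ncard hsub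
        have h5 : k ≤ k * 2 ^ (n + 1) := Nat.le_mul_of_pos_right k (by positivity)
        omega
      · rintro R ⟨hc, hs, hXR, hYR, hk⟩
        exact sub_of hc ⟨x₀, hXR hx₀, hsX hx₀⟩ ((disj_of_opN hYR).mono_right hsub)
    · -- `lam > 0`
      obtain ⟨x, hxo, hxY⟩ : (opN G Rs \ Y).Nonempty := by
        rw [← Set.ncard_pos (Set.toFinite _), hsl]
        exact hlpos
      obtain ⟨hxRs, x₁, hx₁, hadj⟩ := hxo
      have hso : (opN G Rs).ncard ≤ lam + Y.ncard := by
        have h4 : opN G Rs ⊆ (opN G Rs \ Y) ∪ Y := by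
          intro z hz
          by_cases h : z ∈ Y
          · exact Or.inr h
          · exact Or.inl ⟨hz, h⟩
        calc (opN G Rs).ncard ≤ ((opN G Rs \ Y) ∪ Y).ncard := Set.ncard_le_ncard h4
          _ ≤ (opN G Rs \ Y).ncard + Y.ncard := Set.ncard_union_le _ _
          _ = lam + Y.ncard := by rw [hsl]
      -- adding `Rs` to a good set
      have hadd : ∀ R, Gd G I A k X Y R → Gd G I A k X Y (R ∪ Rs) := by
        intro R hR0
        have hle := hlamle R hR0
        obtain ⟨hc, hs, hXR, hYR, hk⟩ := hR0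
        refine ⟨?_, ?_, hXR.trans Set.subset_union_left, ?_, ?_⟩
        · exact conn_union hc hsc ⟨x₀, hXR hx₀, x₀, hsX hx₀, Or.inl rfl⟩
        · exact h1 G I A R Rs hK hs hss (by omega)
        · intro y hy
          obtain ⟨hyR, z, hz, ha⟩ := hYR hy
          refine ⟨?_, z, Or.inl hz, ha⟩
          rintro (h | h)
          · exact hyR h
          · exact Set.disjoint_left.1 hsY h hy
        · have h4 := h2 G R Rs Y
          rw [hsl] at h4
          have h5 := hmin (R ∩ Rs) (Set.subset_inter hXR hsX)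
            (hsY.mono_left Set.inter_subset_right) (sm_mono Set.inter_subset_right hss)
          have h6 := card_split hYR
          have hYR' : Y ⊆ opN G (R ∪ Rs) := by
            intro y hy
            obtain ⟨hyR, z, hz, ha⟩ := hYR hy
            refine ⟨?_, z, Or.inl hz, ha⟩
            rintro (h | h)
            · exact hyR h
            · exact Set.disjoint_left.1 hsY h hy
          have h7 := card_split hYR'
          omega
      have hYx : (insert x Y).ncard = Y.ncard + 1 := Set.ncard_insert_of_notMem hxY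
      -- first kind
      obtain ⟨W₁, hW₁s, hW₁o, hW₁⟩ : ∃ W, Sm G I A W ∧ (opN G W).ncard ≤ k * 2 ^ n ∧
          ∀ R, Gd G I A k X (insert x Y) R → R ⊆ W := by
        by_cases hk1 : (insert x Y).ncard ≤ k
        · refine ih X (insert x Y) (by omega) hX hk1 ?_
          intro R hXR hd hs
          have hd' : Disjoint R Y := hd.mono_right (Set.subset_insert _ _)
          have h4 := hR R hXR hd' hs
          have h5 : (opN G R \ Y).ncard ≤ (opN G R \ insert x Y).ncard + 1 := by
            have h6 : opN G R \ Y ⊆ insert x (opN G R \ insert x Y) := by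
              rintro z ⟨hz, hzY⟩
              by_cases hzx : z = x
              · exact Or.inl hzx
              · refine Or.inr ⟨hz, ?_⟩
                rintro (h | h)
                · exact hzx h
                · exact hzY h
            exact (Set.ncard_le_ncard h6).trans (Set.ncard_insert_le _ _)
          omega
        · refine empty_case I A k _ X (insert x Y) hI ?_
          rintro ⟨R, hc, hs, hXR, hYR, hk⟩
          exact hk1 ((Set.ncard_le_ncard hYR).trans hk)
      -- second kind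
      obtain ⟨W₂, hW₂s, hW₂o, hW₂⟩ : ∃ W, Sm G I A W ∧ (opN G W).ncard ≤ k * 2 ^ n ∧
          ∀ R, Gd G I A k (Rs ∪ {x}) Y R → R ⊆ W := by
        have hcx : (G.induce (Rs ∪ {x})).Connected :=
          conn_union hsc (conn_singleton x) ⟨x₁, hx₁, x, rfl, Or.inr hadj⟩
        refine ih (Rs ∪ {x}) Y (by omega) hcx hY ?_
        intro R hXR hd hs
        have hRsR : Rs ⊆ R := Set.subset_union_left.trans hXR
        have h4 := hmin R (hsX.trans hRsR) hd hs
        have h5 : (opN G R \ Y).ncard ≠ lam := by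
          intro he
          obtain ⟨R', hR'R, hc', hX', ho'⟩ := h3 G R (Rs ∪ {x}) hcx hXR
          have hRsR' : Rs ⊆ R' := Set.subset_union_left.trans hX'
          have h6 : R' ∈ P := by
            rw [hP]
            have h7 := sm_mono hR'R hs
            have h8 : Disjoint R' Y := hd.mono_left hR'R
            refine ⟨hc', hsX.trans hRsR', h8, h7,
              le_antisymm ?_ (hmin R' (hsX.trans hRsR') h8 h7)⟩
            rw [← he]
            exact Set.ncard_le_ncard (Set.diff_subset_diff_left ho')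
          have h7 := hmax R' h6
          have h8 : (insert x Rs).ncard = Rs.ncard + 1 := Set.ncard_insert_of_notMem hxRs
          have h9 : (insert x Rs).ncard ≤ R'.ncard := by
            refine Set.ncard_le_ncard ?_
            rintro z (hz | hz)
            · rw [hz]
              exact hX' (Or.inr rfl)
            · exact hRsR' hz
          omega
        have h6 := hR Rs hsX hsY hss
        omega
      refine ⟨W₁ ∪ W₂, h1 G I A W₁ W₂ hK hW₁s hW₂s (by omega), ?_, ?_⟩
      · have h4 : (opN G (W₁ ∪ W₂)).ncard ≤ (opN G W₁ ∪ opN G W₂).ncard :=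
          Set.ncard_le_ncard (opN_union W₁ W₂)
        have h5 := Set.ncard_union_le (opN G W₁) (opN G W₂)
        omega
      · intro R hR0
        obtain ⟨hc, hs, hXR, hYR, hk⟩ := hadd R hR0
        refine Set.subset_union_left.trans (?_ : R ∪ Rs ⊆ W₁ ∪ W₂)
        by_cases hx : x ∈ R ∪ Rs
        · refine (hW₂ (R ∪ Rs) ⟨hc, hs, ?_, hYR, hk⟩).trans Set.subset_union_right
          rintro z (hz | hz)
          · exact Or.inr hz
          · rw [Set.mem_singleton_iff] at hz
            rw [hz]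
            exact hx
        · refine (hW₁ (R ∪ Rs) ⟨hc, hs, hXR, ?_, hk⟩).trans Set.subset_union_left
          rintro z (hz | hz)
          · rw [hz]
            exact ⟨hx, x₁, Or.inr hx₁, hadj⟩
          · exact hYR hz

end XBLI

open XBLI in
theorem i_BLI (h1 : S_SMU) (h2 : S_SUB) (h3 : S_CMP) : S_BLI := by
  intro V _ G I A k n X Y hK hI hIn hX hY hR
  obtain ⟨W, hWs, hWo, hW⟩ := core h1 h2 h3 I A k hK hI n X Y hIn hX hY hR
  exact ⟨W, hWs, hWo, fun R h4 h5 h6 h7 h8 => hW R ⟨h4, h5, h6, h7, h8⟩⟩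

end Pool.Agent.IM55.CL
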