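import Pool.Agent.Work.MP_55ff09_co.CL.Stmts

set_option autoImplicit false

namespace Pool.Agent.IM55.CL

open SimpleGraph Pool.Agent.IM55 Pool.Agent.IM55.PL

namespace XCMB

variable {V : Type}

theorem ip_shift {G : SimpleGraph V} {w : ℕ → V} {l α l' : ℕ} (h : IP G w l) (hl : α + l' ≤ l) :
    IP G (fun i => w (α + i)) l' where
  adj := fun i hi => h.adj (α + i) (by omega)
  inj := fun i hi j hj e => by
    have := h.inj (α + i) (by omega) (α + j) (by omega) e
    omega
  ind := fun i hi j hj e => by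
    have := h.ind (α + i) (by omega) (α + j) (by omega) e
    omega

theorem touch_mem {G : SimpleGraph V} {v : V} {X : Set V} (h : Touch G {v} X) (hv : v ∉ X) :
    ∃ y ∈ X, G.Adj v y := by
  obtain ⟨x, hx, y, hy, e⟩ := h
  rw [Set.mem_singleton_iff] at hx
  subst hx
  rcases e with e | e
  · subst e; exact absurd hy hv
  · exact ⟨y, hy, e⟩

end XCMB

open XCMB in
theorem i_CMB (hF : S_FEE) : S_CMB := by
  classical
  intro Δ s
  obtain ⟨q₀, hq₀⟩ := hF Δ s Δ
  refine ⟨q₀, ?_⟩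
  intro V _ G w l Z T hΔ hip hZ hT
  rcases Nat.eq_zero_or_pos s with hs | hs
  · subst hs
    refine ⟨w, 0, fun _ => ∅, ?_⟩
    constructor
    · exact ⟨fun i hi => absurd hi (Nat.not_lt_zero i), fun i hi j hj _ => by omega,
        fun i hi j hj e => by
          have h1 : i = 0 := by omega
          have h2 : j = 0 := by omega
          subst h1 h2
          exact absurd e (G.irrefl)⟩
    all_goals (intro j hj; exact absurd hj (Nat.not_lt_zero j))
  have hZfin : Z.Finite := Set.toFinite Z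
  -- enumeration of Z
  obtain ⟨z, hz1, hz2⟩ : ∃ z : ℕ → V, (∀ c < Z.ncard, z c ∈ Z) ∧
      ∀ c < Z.ncard, ∀ c' < Z.ncard, z c = z c' → c = c' := by
    have : Nonempty V := ⟨w 0⟩
    have e : Fin Z.ncard ≃ Z := by
      have : Fintype Z := hZfin.fintype
      refine (Fintype.equivFinOfCardEq ?_).symm
      rw [← Nat.card_eq_fintype_card, Nat.card_coe_set_eq]
    refine ⟨fun c => if h : c < Z.ncard then (e ⟨c, h⟩ : V) else w 0, ?_, ?_⟩
    · intro c hc
      simp only [hc, dif_pos]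
      exact (e ⟨c, hc⟩).2
    · intro c hc c' hc' h
      simp only [hc, hc', dif_pos] at h
      have := e.injective (Subtype.ext h)
      simpa using this
  set q := Z.ncard with hq
  set F : ℕ → Finset ℕ := fun c =>
    (Finset.range (l + 1)).filter (fun p => Touch G {w p} (T (z c))) with hFdef
  have hmemF : ∀ c p, p ∈ F c ↔ p ≤ l ∧ Touch G {w p} (T (z c)) := by
    intro c p
    simp only [hFdef, Finset.mem_filter, Finset.mem_range]
    rw [Nat.lt_succ_iff]
  have h1 : ∀ c < q, (F c).Nonempty ∧ (F c).card ≤ Δ := by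
    intro c hc
    obtain ⟨_, _, t3, t4, _⟩ := hT (z c) (hz1 c hc)
    constructor
    · obtain ⟨p, ⟨i, hi, rfl⟩, ht⟩ := t3
      exact ⟨i, (hmemF c i).2 ⟨hi, ht⟩⟩
    · have hinj : Set.InjOn w (F c : Set ℕ) := by
        intro i hi j hj e
        exact hip.inj i ((hmemF c i).1 hi).1 j ((hmemF c j).1 hj).1 e
      have e1 : (w '' (F c : Set ℕ)).ncard = (F c).card := by
        rw [Set.ncard_image_of_injOn hinj, Set.ncard_coe_finset]
      rw [← e1]
      refine le_trans (Set.ncard_le_ncard ?_ (Set.toFinite _)) t4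
      rintro _ ⟨i, hi, rfl⟩
      obtain ⟨a, b⟩ := (hmemF c i).1 hi
      exact ⟨⟨i, a, rfl⟩, b⟩
  have h2 : ∀ p, ((Finset.range q).filter fun c => p ∈ F c).card ≤ Δ := by
    intro p
    have hch : ∀ c : ℕ, ∃ y : V, c < q → p ∈ F c → y ∈ T (z c) ∧ G.Adj (w p) y := by
      intro c
      by_cases hc : c < q ∧ p ∈ F c
      · obtain ⟨hc, hp⟩ := hc
        obtain ⟨hpl, ht⟩ := (hmemF c p).1 hp
        obtain ⟨_, t2, _⟩ := hT (z c) (hz1 c hc)
        obtain ⟨y, hy, ha⟩ := touch_mem ht (fun hm => (Set.disjoint_left.1 t2 hm) ⟨p, hpl, rfl⟩)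
        exact ⟨y, fun _ _ => ⟨hy, ha⟩⟩
      · exact ⟨w 0, fun a b => absurd ⟨a, b⟩ hc⟩
    choose y hy using hch
    have hinj : Set.InjOn y (((Finset.range q).filter fun c => p ∈ F c : Finset ℕ) : Set ℕ) := by
      intro c hc c' hc' e
      simp only [Finset.coe_filter, Finset.mem_range, Set.mem_setOf_eq] at hc hc'
      by_contra hne
      have a1 := hy c hc.1 hc.2
      have a2 := hy c' hc'.1 hc'.2
      have hzne : z c ≠ z c' := fun e' => hne (hz2 c hc.1 c' hc'.1 e')
      have hd := ((hT (z c) (hz1 c hc.1)).2.2.2.2 (z c') (hz1 c' hc'.1) hzne).1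
      rw [← e] at a2
      exact Set.disjoint_left.1 hd a1.1 a2.1
    have e1 : (y '' (((Finset.range q).filter fun c => p ∈ F c : Finset ℕ) : Set ℕ)).ncard =
        ((Finset.range q).filter fun c => p ∈ F c).card := by
      rw [Set.ncard_image_of_injOn hinj, Set.ncard_coe_finset]
    rw [← e1]
    refine le_trans (Set.ncard_le_ncard ?_ (Set.toFinite _)) (hΔ (w p))
    rintro _ ⟨c, hc, rfl⟩
    simp only [Finset.coe_filter, Finset.mem_range, Set.mem_setOf_eq] at hc
    exact (hy c hc.1 hc.2).2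
  obtain ⟨α, β, c, hc1, hc2⟩ := hq₀ q hZ F h1 h2
  have hne : ∀ j < s, ∀ j' < s, j ≠ j' → c j ≠ c j' := by
    intro j hj j' hj' hjj e
    rcases lt_or_gt_of_ne hjj with h | h
    · obtain ⟨_, x, hx, hxa, hxb⟩ := hc1 j hj
      have := hc2 j hj j' hj' h x hx x (e ▸ hx) hxa hxb hxa hxb
      omega
    · obtain ⟨_, x, hx, hxa, hxb⟩ := hc1 j hj
      have := hc2 j' hj' j hj h x (e ▸ hx) x hx hxa hxb hxa hxb
      omega
  have hzne : ∀ j < s, ∀ j' < s, j ≠ j' → z (c j) ≠ z (c j') := by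
    intro j hj j' hj' hjj e
    exact hne j hj j' hj' hjj (hz2 _ (hc1 j hj).1 _ (hc1 j' hj').1 e)
  have hαl : α ≤ min β l := by
    obtain ⟨_, x, hx, hxa, hxb⟩ := hc1 0 hs
    have := ((hmemF _ x).1 hx).1
    exact le_min (le_trans hxa hxb) (le_trans hxa this)
  have hle : α + (min β l - α) ≤ l := by
    have := min_le_right β l
    omega
  refine ⟨fun i => w (α + i), min β l - α, fun j => T (z (c j)), ?_⟩
  constructor
  · exact ip_shift hip hle
  · intro j hj
    exact (hT _ (hz1 _ (hc1 j hj).1)).1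
  · intro j hj j' hj' hjj
    exact ((hT _ (hz1 _ (hc1 j hj).1)).2.2.2.2 _ (hz1 _ (hc1 j' hj').1) (hzne j hj j' hj' hjj)).1
  · intro j hj j' hj' hjj
    exact ((hT _ (hz1 _ (hc1 j hj).1)).2.2.2.2 _ (hz1 _ (hc1 j' hj').1) (hzne j hj j' hj' hjj)).2
  · intro j hj
    refine Set.disjoint_of_subset_right ?_ (hT _ (hz1 _ (hc1 j hj).1)).2.1
    rintro _ ⟨i, hi, rfl⟩
    exact ⟨α + i, by omega, rfl⟩
  · intro j hj
    obtain ⟨_, x, hx, hxa, hxb⟩ := hc1 j hj
    obtain ⟨hxl, ht⟩ := (hmemF _ x).1 hx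
    refine ⟨x - α, ?_, ?_⟩
    · have : x ≤ min β l := le_min hxb hxl
      omega
    · have : α + (x - α) = x := by omega
      simp only [this]
      exact ht
  · intro j hj j' hj' hjj p hp p' hp' ht ht'
    have hmin := min_le_left β l
    have a1 : α + p ∈ F (c j) := (hmemF _ _).2 ⟨by omega, ht⟩
    have a2 : α + p' ∈ F (c j') := (hmemF _ _).2 ⟨by omega, ht'⟩
    have := hc2 j hj j' hj' hjj _ a1 _ a2 (by omega) (by omega) (by omega) (by omega)
    omega

end Pool.Agent.IM55.CL
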