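import Pool.Agent.Work.MP_55ff09_co.CL.Stmts

/-!
# MP_55ff09_co, block CL, item CMP: the component
-/

set_option autoImplicit false

namespace Pool.Agent.IM55.CL

open SimpleGraph Pool.Agent.IM55 Pool.Agent.IM55.PL

/-- the component of a connected set -/
theorem i_CMP : S_CMP := by
  intro V G S X hX hXS
  obtain ⟨⟨x, hx⟩⟩ := hX.nonempty
  refine ⟨cmp G S x, cmp_subset, cmp_connected (hXS hx), subset_cmp hX hx hXS, ?_⟩
  rintro v ⟨hv, u, hu, huv⟩
  refine ⟨fun hvS => hv ?_, u, cmp_subset hu, huv⟩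
  first
    | exact cmp_adj hu hvS huv
    | exact cmp_adj hu hvS huv.symm

end Pool.Agent.IM55.CL
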