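import Pool.Agent.Work.MP_55ff09_co.CL.Stmts

/-!
# MP_55ff09_co, block CL, item CNF: two families without conflict
-/

set_option autoImplicit false

namespace Pool.Agent.IM55.CL

open SimpleGraph Pool.Agent.IM55 Pool.Agent.IM55.PL

namespace XCNF

/-- The unions of branch sets of disjoint index sets are disjoint. -/
lemma ua_inj {V : Type} {G : SimpleGraph V} {I : Finset ℕ} {A : ℕ → Set V} (hK : KM G I A)
    {D D' : Finset ℕ} (hD : D ⊆ I) (hD' : D' ⊆ I) (hdis : Disjoint D D') {v : V}
    (h : v ∈ UA A D) (h' : v ∈ UA A D') : False := by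
  obtain ⟨d, hd, hv⟩ := h
  obtain ⟨d', hd', hv'⟩ := h'
  have hne : d ≠ d' := by
    rintro rfl
    exact Finset.disjoint_left.1 hdis hd hd'
  exact Set.disjoint_left.1 (hK.dis d (hD hd) d' (hD' hd') hne) hv hv'

end XCNF

theorem i_CNF : S_CNF := by
  classical
  intro V _ G I A k D X hK hDI hdis hX
  by_contra hcon
  push Not at hcon
  set n := 2 * k + 2 with hn
  set B : Finset (ℕ × ℕ) := (Finset.range n ×ˢ Finset.range n).filter
    (fun p => ¬ Disjoint (X p.1) (UA A (D p.2))) with hB
  have hsub : (Finset.range n).offDiag ⊆ B ∪ B.image Prod.swap := by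
    rintro ⟨i, j⟩ hij
    simp only [Finset.mem_offDiag, Finset.mem_range] at hij
    obtain ⟨hi, hj, hne⟩ := hij
    by_cases h : Disjoint (X i) (UA A (D j))
    · have h2 := hcon i hi j hj hne h
      refine Finset.mem_union_right _ (Finset.mem_image.2 ⟨(j, i), ?_, rfl⟩)
      exact Finset.mem_filter.2 ⟨Finset.mem_product.2 ⟨Finset.mem_range.2 hj, Finset.mem_range.2 hi⟩, h2⟩
    · refine Finset.mem_union_left _ ?_
      exact Finset.mem_filter.2 ⟨Finset.mem_product.2 ⟨Finset.mem_range.2 hi, Finset.mem_range.2 hj⟩, h⟩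
  have hcB : B.card ≤ k * (Finset.range n).card := by
    refine Finset.card_le_mul_card_image_of_maps_to (f := Prod.fst) ?_ k ?_
    · intro p hp
      exact (Finset.mem_product.1 (Finset.mem_filter.1 hp).1).1
    · intro i hi
      rw [Finset.mem_range] at hi
      have hex : ∀ p : ℕ × ℕ, p ∈ B.filter (fun p => p.1 = i) → ∃ v, v ∈ X i ∧ v ∈ UA A (D p.2) := by
        intro p hp
        rw [Finset.mem_filter] at hp
        have h1 := (Finset.mem_filter.1 hp.1).2
        rw [hp.2] at h1
        obtain ⟨v, hv, hv'⟩ := Set.not_disjoint_iff.1 h1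
        exact ⟨v, hv, hv'⟩
      rcases (B.filter (fun p => p.1 = i)).eq_empty_or_nonempty with hemp | ⟨p₀, hp₀⟩
      · rw [hemp, Finset.card_empty]
        exact Nat.zero_le _
      haveI : Nonempty V := ⟨(hex p₀ hp₀).choose⟩
      choose! g hg1 hg2 using hex
      have hfin : (X i).Finite := Set.toFinite _
      refine le_trans ?_ (hX i hi)
      rw [Set.ncard_eq_toFinset_card _ hfin]
      refine Finset.card_le_card_of_injOn g ?_ ?_
      · intro p hp
        exact hfin.mem_toFinset.2 (hg1 p hp)
      · intro p hp p' hp' hpp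
        have hp2 := Finset.mem_filter.1 (Finset.mem_coe.1 hp)
        have hp2' := Finset.mem_filter.1 (Finset.mem_coe.1 hp')
        have hr := (Finset.mem_product.1 (Finset.mem_filter.1 hp2.1).1).2
        have hr' := (Finset.mem_product.1 (Finset.mem_filter.1 hp2'.1).1).2
        rw [Finset.mem_range] at hr hr'
        by_cases h : p.2 = p'.2
        · exact Prod.ext (hp2.2.trans hp2'.2.symm) h
        · exact (XCNF.ua_inj hK (hDI _ hr) (hDI _ hr') (hdis _ hr _ hr' h) (hg2 p hp)
            (hpp ▸ hg2 p' hp')).elim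
  have hc : (Finset.range n).offDiag.card ≤ B.card + B.card :=
    (Finset.card_le_card hsub).trans ((Finset.card_union_le _ _).trans
      (Nat.add_le_add_left Finset.card_image_le _))
  rw [Finset.offDiag_card, Finset.card_range] at hc
  rw [Finset.card_range] at hcB
  have h3 : n * n ≤ k * n + k * n + n := by omega
  have h4 : n * n = k * n + k * n + 2 * n := by
    rw [hn]
    ring
  omega

end Pool.Agent.IM55.CL
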