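import Pool.Agent.Work.MP_55ff09_co.CL.Stmts

/-!
# MP_55ff09_co, block CL, item EMB: the normal form of `H`
-/

set_option autoImplicit false

namespace Pool.Agent.IM55.CL

open SimpleGraph Pool.Agent.IM55 Pool.Agent.IM55.PL

namespace XEMB

theorem adj_ll {a l : ℕ} {E : ℕ → ℕ → Prop} (i j : Fin a) :
    (HP a l E).Adj (Sum.inl i) (Sum.inl j) ↔ i ≠ j := Iff.rfl

theorem adj_lr {a l : ℕ} {E : ℕ → ℕ → Prop} (i : Fin a) (x : Fin l) :
    (HP a l E).Adj (Sum.inl i) (Sum.inr x) ↔ E i x := Iff.rfl

theorem adj_rl {a l : ℕ} {E : ℕ → ℕ → Prop} (i : Fin a) (x : Fin l) :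
    (HP a l E).Adj (Sum.inr x) (Sum.inl i) ↔ E i x := Iff.rfl

theorem adj_rr {a l : ℕ} {E : ℕ → ℕ → Prop} (x y : Fin l) :
    (HP a l E).Adj (Sum.inr x) (Sum.inr y) ↔ (x : ℕ) + 1 = y ∨ (y : ℕ) + 1 = x := Iff.rfl

end XEMB

open XEMB in
theorem i_EMB : S_EMB := by
  classical
  intro m H K e hK he
  -- a bound for the numbers `e v`
  obtain ⟨c, hc⟩ : ∃ c : ℕ, ∀ v, |e v| ≤ c := by
    refine ⟨(∑ v, |e v|).toNat, fun v => ?_⟩
    have h0 : 0 ≤ ∑ v, |e v| := Finset.sum_nonneg fun v _ => abs_nonneg _
    rw [Int.toNat_of_nonneg h0]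
    exact Finset.single_le_sum (f := fun v => |e v|) (fun v _ => abs_nonneg _) (Finset.mem_univ v)
  obtain ⟨e', he'⟩ : ∃ e' : Fin m → ℕ, ∀ v, (e' v : ℤ) = e v + c := by
    refine ⟨fun v => (e v + c).toNat, fun v => ?_⟩
    have := abs_le.1 (hc v)
    rw [Int.toNat_of_nonneg]
    linarith [this.1]
  have hlt : ∀ v, e' v < 2 * c + 1 := by
    intro v
    have h1 := abs_le.1 (hc v)
    have h2 := he' v
    omega
  obtain ⟨L, hL⟩ : ∃ L, L = 2 * c + 1 := ⟨_, rfl⟩
  rw [← hL] at hlt
  obtain ⟨E, hE⟩ : ∃ E : ℕ → ℕ → Prop, ∀ i x, E i x ↔ (x = L + 1 + i ∨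
      ∃ u ∈ K, u.val = i ∧ ∃ v, v ∉ K ∧ e' v = x ∧ H.Adj u v) := ⟨_, fun i x => Iff.rfl⟩
  have hinj : ∀ u, u ∉ K → ∀ v, v ∉ K → e' u = e' v → u = v := by
    intro u hu v hv huv
    by_contra hne
    apply (he u hu v hv hne).1
    have h1 := he' u
    have h2 := he' v
    omega
  have hmix : ∀ u, u ∈ K → ∀ v, v ∉ K → (H.Adj u v ↔ E u.val (e' v)) := by
    intro u hu v hv
    rw [hE]
    constructor
    · intro h
      exact Or.inr ⟨u, hu, rfl, v, hv, rfl, h⟩
    · rintro (h | ⟨u', hu', h1, v', hv', h2, h3⟩)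
      · have := hlt v
        omega
      · rw [← Fin.ext h1, ← hinj v' hv' v hv h2]
        exact h3
  refine ⟨m + 1, L + 1 + (m + 1), E, fun u => if u ∈ K then Sum.inl ⟨u.val, by omega⟩
    else Sum.inr ⟨e' u, by have := hlt u; omega⟩, by omega, by omega, ?_, ?_, ?_⟩
  · intro i hi
    exact ⟨L + 1 + i, by omega, (hE _ _).2 (Or.inl rfl)⟩
  · intro u v huv
    by_cases hu : u ∈ K <;> by_cases hv : v ∈ K
    · simp only [if_pos hu, if_pos hv, Sum.inl.injEq, Fin.mk.injEq] at huv
      exact Fin.ext huv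
    · simp only [if_pos hu, if_neg hv] at huv
      exact absurd huv (by simp)
    · simp only [if_neg hu, if_pos hv] at huv
      exact absurd huv (by simp)
    · simp only [if_neg hu, if_neg hv, Sum.inr.injEq, Fin.mk.injEq] at huv
      exact hinj u hu v hv huv
  · intro u v
    by_cases hu : u ∈ K <;> by_cases hv : v ∈ K
    · simp only [if_pos hu, if_pos hv]
      rw [adj_ll]
      constructor
      · intro h h2
        apply h.ne
        rw [Fin.mk.injEq] at h2
        exact Fin.ext h2
      · intro h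
        refine hK u hu v hv fun h2 => h ?_
        rw [h2]
    · simp only [if_pos hu, if_neg hv]
      rw [adj_lr]
      exact hmix u hu v hv
    · simp only [if_neg hu, if_pos hv]
      rw [adj_rl, H.adj_comm]
      exact hmix v hv u hu
    · simp only [if_neg hu, if_neg hv]
      rw [adj_rr]
      by_cases huv : u = v
      · subst huv
        constructor
        · intro h
          exact absurd h (H.loopless.irrefl u)
        · intro h
          omega
      · rw [(he u hu v hv huv).2, abs_eq (by norm_num)]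
        have h1 := he' u
        have h2 := he' v
        constructor
        · rintro (h | h)
          · right
            show e' v + 1 = e' u
            omega
          · left
            show e' u + 1 = e' v
            omega
        · rintro (h | h)
          · right
            have h : e' u + 1 = e' v := h
            omega
          · left
            have h : e' v + 1 = e' u := h
            omega

end Pool.Agent.IM55.CL
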