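import Pool.Agent.Work.MP_55ff09_co.CL.Stmts

/-!
# MP_55ff09_co, block CL, item FEE: local feet (helper78)
-/

set_option autoImplicit false

namespace Pool.Agent.IM55.CL

open Pool.Agent.IM55 Pool.Agent.IM55.PL

namespace XFEE

open Finset

theorem step (F : ℕ → Finset ℕ) (D M : ℕ) : ∀ (s : ℕ) (C : Finset ℕ) (a : ℕ),
    s * (M + 1 + D) ≤ C.card → (∀ c ∈ C, (F c).Nonempty) → (∀ c ∈ C, ∀ x ∈ F c, a ≤ x) →
    (∀ p, (C.filter fun c => p ∈ F c).card ≤ D) →
    (∃ u v, M ≤ (C.filter fun c => (∃ x ∈ F c, u ≤ x ∧ x < v) ∧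
      ¬ ∀ x ∈ F c, u ≤ x ∧ x < v).card) ∨
    ∃ c : ℕ → ℕ, (∀ j < s, c j ∈ C) ∧
      ∀ j < s, ∀ j' < s, j < j' → ∀ x ∈ F (c j), ∀ y ∈ F (c j'), x < y := by
  intro s
  induction s with
  | zero =>
    intro C a _ _ _ _
    exact Or.inr ⟨fun _ => 0, fun j hj => absurd hj (Nat.not_lt_zero j),
      fun j hj => absurd hj (Nat.not_lt_zero j)⟩
  | succ s ih =>
    intro C a hC hne ha hD
    have hC1 : M + 1 ≤ C.card := by
      rw [Nat.succ_mul] at hC
      omega
    have hex : ∃ y, M + 1 ≤ (C.filter fun c => ∃ x ∈ F c, x < y).card := by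
      refine ⟨(C.biUnion F).sup id + 1, ?_⟩
      have e : (C.filter fun c => ∃ x ∈ F c, x < (C.biUnion F).sup id + 1) = C := by
        apply Finset.filter_true_of_mem
        intro c hc
        obtain ⟨x, hx⟩ := hne c hc
        exact ⟨x, hx, Nat.lt_succ_of_le
          (Finset.le_sup (f := id) (Finset.mem_biUnion.2 ⟨c, hc, hx⟩))⟩
      rw [e]
      exact hC1
    have hy1 := Nat.find_spec hex
    have hy2 := fun m => Nat.find_min hex (m := m)
    set y := Nat.find hex
    have hy0 : y ≠ 0 := by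
      intro h0
      rw [h0] at hy1
      have e : (C.filter fun c => ∃ x ∈ F c, x < 0) = ∅ := by
        apply Finset.filter_false_of_mem
        rintro c _ ⟨x, _, hx⟩
        exact Nat.not_lt_zero x hx
      rw [e, Finset.card_empty] at hy1
      omega
    set B := C.filter fun c => ∃ x ∈ F c, x < y with hB
    have hBle : B.card ≤ M + 1 + D := by
      have h1 := hy2 (y - 1) (by omega)
      have h2 : B ⊆ (C.filter fun c => ∃ x ∈ F c, x < y - 1) ∪ (C.filter fun c => y - 1 ∈ F c) := by
        intro c hc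
        rw [hB, Finset.mem_filter] at hc
        obtain ⟨hc, x, hx, hxy⟩ := hc
        rw [Finset.mem_union, Finset.mem_filter, Finset.mem_filter]
        rcases Nat.lt_or_ge x (y - 1) with h3 | h3
        · exact Or.inl ⟨hc, x, hx, h3⟩
        · have h4 : x = y - 1 := by omega
          rw [h4] at hx
          exact Or.inr ⟨hc, hx⟩
      have h3 := (Finset.card_le_card h2).trans (Finset.card_union_le _ _)
      have h4 := hD (y - 1)
      omega
    by_cases hM : M ≤ (B.filter fun c => ¬ ∀ x ∈ F c, x < y).card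
    · left
      refine ⟨a, y, hM.trans (Finset.card_le_card ?_)⟩
      intro c hc
      rw [Finset.mem_filter, hB, Finset.mem_filter] at hc
      obtain ⟨⟨hc, x, hx, hxy⟩, hn⟩ := hc
      rw [Finset.mem_filter]
      exact ⟨hc, ⟨x, hx, ha c hc x hx, hxy⟩, fun h => hn fun z hz => (h z hz).2⟩
    · have h5 : ∃ c0 ∈ B, ∀ x ∈ F c0, x < y := by
        by_contra hcon
        apply hM
        have e : (B.filter fun c => ¬ ∀ x ∈ F c, x < y) = B := by
          apply Finset.filter_true_of_mem
          intro c hc h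
          exact hcon ⟨c, hc, h⟩
        rw [e]
        omega
      obtain ⟨c0, hc0, hc0y⟩ := h5
      have hBC : B ⊆ C := Finset.filter_subset _ _
      have hC' : s * (M + 1 + D) ≤ (C \ B).card := by
        rw [Finset.card_sdiff_of_subset hBC]
        rw [Nat.succ_mul] at hC
        omega
      have hsub : C \ B ⊆ C := Finset.sdiff_subset
      rcases ih (C \ B) y hC' (fun c hc => hne c (hsub hc)) (by
        intro c hc x hx
        by_contra hlt
        rw [Finset.mem_sdiff, hB, Finset.mem_filter] at hc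
        exact hc.2 ⟨hc.1, x, hx, not_le.1 hlt⟩)
        (fun p => (Finset.card_le_card (Finset.filter_subset_filter _ hsub)).trans (hD p)) with
        ⟨u, v, huv⟩ | ⟨c, hc1, hc2⟩
      · exact Or.inl ⟨u, v, huv.trans (Finset.card_le_card (Finset.filter_subset_filter _ hsub))⟩
      · right
        refine ⟨fun j => match j with
          | 0 => c0
          | j + 1 => c j, ?_, ?_⟩
        · intro j hj
          cases j with
          | zero => exact hBC hc0
          | succ j => exact hsub (hc1 j (by omega))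
        · intro j hj j' hj' hjj' x hx z hz
          cases j' with
          | zero => omega
          | succ j' =>
            cases j with
            | zero =>
              have h6 := hc0y x hx
              have h7 := hc1 j' (by omega)
              by_contra hlt
              rw [Finset.mem_sdiff, hB, Finset.mem_filter] at h7
              exact h7.2 ⟨h7.1, z, hz, by omega⟩
            | succ j => exact hc2 j (by omega) j' (by omega) (by omega) x hx z hz

theorem main (D s : ℕ) : ∀ d : ℕ, ∃ q₀ : ℕ, ∀ C : Finset ℕ, q₀ ≤ C.card → ∀ F : ℕ → Finset ℕ,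
    (∀ c ∈ C, (F c).Nonempty ∧ (F c).card ≤ d) →
    (∀ p, (C.filter fun c => p ∈ F c).card ≤ D) →
    ∃ (α β : ℕ) (c : ℕ → ℕ), (∀ j < s, c j ∈ C ∧ ∃ x ∈ F (c j), α ≤ x ∧ x ≤ β) ∧
    ∀ j < s, ∀ j' < s, j < j' → ∀ x ∈ F (c j), ∀ y ∈ F (c j'), α ≤ x → x ≤ β → α ≤ y → y ≤ β →
      x < y := by
  intro d
  induction d with
  | zero =>
    refine ⟨1, fun C hC F hF _ => ?_⟩
    obtain ⟨c, hc⟩ := Finset.card_pos.1 (Nat.lt_of_lt_of_le Nat.zero_lt_one hC)
    obtain ⟨h1, h2⟩ := hF c hc
    have h3 := Finset.card_pos.2 h1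
    omega
  | succ d ih =>
    obtain ⟨M, hM⟩ := ih
    refine ⟨s * (M + 1 + D), fun C hC F hF hD => ?_⟩
    rcases step F D M s C 0 hC (fun c hc => (hF c hc).1) (fun c _ x _ => Nat.zero_le x) hD with
      ⟨u, v, huv⟩ | ⟨c, hc1, hc2⟩
    · set C1 := C.filter fun c => (∃ x ∈ F c, u ≤ x ∧ x < v) ∧ ¬ ∀ x ∈ F c, u ≤ x ∧ x < v
        with hC1
      obtain ⟨α, β, c, h1, h2⟩ := hM C1 huv (fun c => (F c).filter fun x => u ≤ x ∧ x < v) (by
        intro c hc
        rw [hC1, Finset.mem_filter] at hc
        obtain ⟨hc, ⟨x, hx, hxu⟩, hn⟩ := hc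
        refine ⟨⟨x, Finset.mem_filter.2 ⟨hx, hxu⟩⟩, ?_⟩
        have h3 : ((F c).filter fun x => u ≤ x ∧ x < v).card < (F c).card := by
          apply Finset.card_lt_card
          rw [Finset.filter_ssubset]
          by_contra hcon
          apply hn
          intro z hz
          by_contra hz'
          exact hcon ⟨z, hz, hz'⟩
        have h4 := (hF c hc).2
        omega) (by
        intro p
        refine (Finset.card_le_card ?_).trans (hD p)
        intro c hc
        rw [Finset.mem_filter, hC1, Finset.mem_filter, Finset.mem_filter] at hc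
        rw [Finset.mem_filter]
        exact ⟨hc.1.1, hc.2.1⟩)
      refine ⟨max α u, min β (v - 1), c, ?_, ?_⟩
      · intro j hj
        obtain ⟨h3, x, hx, hx1, hx2⟩ := h1 j hj
        rw [Finset.mem_filter] at hx
        refine ⟨(Finset.mem_filter.1 h3).1, x, hx.1, max_le hx1 hx.2.1, le_min hx2 ?_⟩
        have := hx.2.2
        omega
      · intro j hj j' hj' hjj' x hx y hy hx1 hx2 hy1 hy2
        obtain ⟨-, z, hz, -, -⟩ := h1 j hj
        rw [Finset.mem_filter] at hz
        have hv : 0 < v := by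
          have := hz.2.2
          omega
        rw [max_le_iff] at hx1 hy1
        rw [le_min_iff] at hx2 hy2
        exact h2 j hj j' hj' hjj' x (Finset.mem_filter.2 ⟨hx, hx1.2, by omega⟩) y
          (Finset.mem_filter.2 ⟨hy, hy1.2, by omega⟩) hx1.1 hx2.1 hy1.1 hy2.1
    · refine ⟨0, (C.biUnion F).sup id, c, ?_, ?_⟩
      · intro j hj
        have h3 := hc1 j hj
        obtain ⟨x, hx⟩ := (hF (c j) h3).1
        exact ⟨h3, x, hx, Nat.zero_le x,
          Finset.le_sup (f := id) (Finset.mem_biUnion.2 ⟨c j, h3, hx⟩)⟩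
      · intro j hj j' hj' hjj' x hx y hy _ _ _ _
        exact hc2 j hj j' hj' hjj' x hx y hy

end XFEE

theorem i_FEE : S_FEE := by
  intro D s d
  obtain ⟨q₀, hq₀⟩ := XFEE.main D s d
  refine ⟨q₀, fun q hq F hF hD => ?_⟩
  obtain ⟨α, β, c, h1, h2⟩ := hq₀ (Finset.range q) (by rw [Finset.card_range]; exact hq) F
    (fun c hc => hF c (Finset.mem_range.1 hc)) hD
  exact ⟨α, β, c, fun j hj => ⟨Finset.mem_range.1 (h1 j hj).1, (h1 j hj).2⟩, h2⟩

end Pool.Agent.IM55.CL
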