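import Pool.Agent.Work.MP_55ff09_co.CL.Stmts

/-!
# MP_55ff09_co, block CL, item FIN: the theorem from EMB, IND and HAV
-/

set_option autoImplicit false

namespace Pool.Agent.IM55.CL

open SimpleGraph Pool.Agent.IM55 Pool.Agent.IM55.PL

theorem i_FIN (h1 : S_EMB) (h2 : S_IND) (h3 : S_HAV) : S_FIN := by
  intro m H K e hK he D
  obtain ⟨a, l, E, f, ha, hl, hE, hf, hadj⟩ := h1 m H K e hK he
  obtain ⟨t, ht⟩ := h3 D a l ha hl
  exact ⟨t, fun G hG hno hKt => hno (h2 H (HP a l E) G f hf hadj (ht G hG hKt E hE))⟩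

end Pool.Agent.IM55.CL
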