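import Pool.Agent.Work.MP_55ff09_co.CL.Stmts

/-!
# MP_55ff09_co, block CL, item FSB: submodularity of `fo`
-/

set_option autoImplicit false

namespace Pool.Agent.IM55.CL

open SimpleGraph Pool.Agent.IM55 Pool.Agent.IM55.PL

namespace XFSB

variable {V : Type}

theorem meet_union {G : SimpleGraph V} {S T X : Set V}
    (h : (X ∩ opN G (S ∪ T)).Nonempty) :
    (X ∩ opN G S).Nonempty ∨ (X ∩ opN G T).Nonempty := by
  obtain ⟨v, hv, hn, x, hx, hxv⟩ := h
  rcases hx with hx | hx
  · exact Or.inl ⟨v, hv, fun h => hn (Or.inl h), x, hx, hxv⟩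
  · exact Or.inr ⟨v, hv, fun h => hn (Or.inr h), x, hx, hxv⟩

theorem meet_inter {G : SimpleGraph V} {S T X : Set V} (hS : Disjoint S X) (hT : Disjoint T X)
    (h : (X ∩ opN G (S ∩ T)).Nonempty) :
    (X ∩ opN G S).Nonempty ∧ (X ∩ opN G T).Nonempty := by
  obtain ⟨v, hv, _, x, hx, hxv⟩ := h
  exact ⟨⟨v, hv, fun h => Set.disjoint_left.1 hS h hv, x, hx.1, hxv⟩,
    ⟨v, hv, fun h => Set.disjoint_left.1 hT h hv, x, hx.2, hxv⟩⟩

end XFSB

/-- Item FSB. -/
theorem i_FSB (hSUB : S_SUB) : S_FSB := by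
  classical
  intro V _ G A D S T hS hT
  have h1 := hSUB G S T (UA A D)
  have h2 : (D.filter fun d => (A d ∩ opN G (S ∪ T)).Nonempty).card +
      (D.filter fun d => (A d ∩ opN G (S ∩ T)).Nonempty).card ≤
      (D.filter fun d => (A d ∩ opN G S).Nonempty).card +
        (D.filter fun d => (A d ∩ opN G T).Nonempty).card := by
    simp only [Finset.card_filter]
    rw [← Finset.sum_add_distrib, ← Finset.sum_add_distrib]
    refine Finset.sum_le_sum fun d hd => ?_
    have hd' : A d ⊆ UA A D := fun v hv => ⟨d, hd, hv⟩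
    have hSd : Disjoint S (A d) := hS.mono_right hd'
    have hTd : Disjoint T (A d) := hT.mono_right hd'
    by_cases hi : (A d ∩ opN G (S ∩ T)).Nonempty
    · obtain ⟨ha, hb⟩ := XFSB.meet_inter hSd hTd hi
      rw [if_pos hi, if_pos ha, if_pos hb]
      split_ifs <;> omega
    · rw [if_neg hi]
      by_cases hu : (A d ∩ opN G (S ∪ T)).Nonempty
      · rw [if_pos hu]
        rcases XFSB.meet_union hu with ha | hb
        · rw [if_pos ha]
          omega
        · rw [if_pos hb]
          omega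
      · rw [if_neg hu]
        omega
  unfold fo
  simp only [Finset.card_filter] at h2 ⊢
  omega

end Pool.Agent.IM55.CL
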