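import Pool.Agent.Work.MP_55ff09_co.CL.Stmts

/-!
# MP_55ff09_co, block CL, item HAV: the theorem for `HP`
-/

set_option autoImplicit false

namespace Pool.Agent.IM55.CL

open SimpleGraph Pool.Agent.IM55 Pool.Agent.IM55.PL

namespace XHAV

/-- an induced minor model of a complete graph gives branch sets -/
theorem km {V : Type} (G : SimpleGraph V) (t : ℕ)
    (h : IsInducedMinor (⊤ : SimpleGraph (Fin t)) G) :
    ∃ A : ℕ → Set V, KM G (Finset.range t) A := by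
  obtain ⟨X, h1, h2, h3⟩ := h
  obtain ⟨A, hA⟩ : ∃ A : ℕ → Set V, ∀ i (hi : i < t), A i = X ⟨i, hi⟩ :=
    ⟨fun i => if hi : i < t then X ⟨i, hi⟩ else ∅, fun i hi => dif_pos hi⟩
  refine ⟨A, ?_, ?_, ?_⟩
  · intro i hi
    have hi' := Finset.mem_range.1 hi
    rw [hA i hi']
    exact h1 _
  · intro i hi j hj hij
    have hi' := Finset.mem_range.1 hi
    have hj' := Finset.mem_range.1 hj
    rw [hA i hi', hA j hj']
    exact h2 _ _ (fun e => hij (congrArg Fin.val e))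
  · intro i hi j hj hij
    have hi' := Finset.mem_range.1 hi
    have hj' := Finset.mem_range.1 hj
    rw [hA i hi', hA j hj']
    have hne : (⟨i, hi'⟩ : Fin t) ≠ ⟨j, hj'⟩ := fun e => hij (congrArg Fin.val e)
    obtain ⟨x, hx, y, hy, hxy⟩ := (h3 _ _ hne).1 hne
    exact ⟨x, hx, y, hy, Or.inr hxy⟩

end XHAV

theorem i_HAV (hCMB : S_CMB) (hLNK : S_LNK) (hPTH : S_PTH) (hOUT : S_OUT) (hTLS : S_TLS)
    (hASM : S_ASM) : S_HAV := by
  intro D a l ha hl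
  obtain ⟨q₀, hq₀⟩ := hCMB D (l * a)
  obtain ⟨k, hk⟩ : ∃ k : ℕ, k = max D q₀ := ⟨_, rfl⟩
  have hkD : D ≤ k := hk ▸ le_max_left _ _
  have hkq : q₀ ≤ k := hk ▸ le_max_right _ _
  choose M hM using hLNK 0
  obtain ⟨Mx, hMx⟩ : ∃ Mx : ℕ, ∀ q ≤ k + D, M q ≤ Mx :=
    ⟨(Finset.range (k + D + 1)).sup M, fun q hq =>
      Finset.le_sup (f := M) (Finset.mem_range.2 (Nat.lt_succ_of_le hq))⟩
  refine ⟨k * 4 ^ k + 2 * k + 3 * D + 3 + Mx, ?_⟩
  intro V _ G hdeg hmin E hE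
  obtain ⟨A, hA⟩ := XHAV.km G _ hmin
  obtain ⟨w, l₁, R, q, hip, hR, hSm, hq, hkq', hqk, hlow⟩ := hPTH G D _ A k hdeg hA hkD
    (by rw [Finset.card_range]; omega)
  obtain ⟨E', hE', hcard, hanti⟩ := hOUT G _ A R hA hSm
  rw [Finset.card_range, hq] at hcard
  have hMq := hMx q hqk
  obtain ⟨D', hD', -, hfo⟩ := hM q G _ A R E' hA hE' hanti
    (fun S hS hS' => hlow S (hR.trans hS) hS') (by omega)
  obtain ⟨T, hT⟩ := hTLS G D _ A (rng w l₁) R D' q hdeg hA hR hSm hq hlow (hD'.trans hE')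
    (fun d hd => hanti d (hD' hd)) hfo
  obtain ⟨w', l', T', hcomb⟩ := hq₀ G w l₁ (opN G R) T hdeg hip (by rw [hq]; omega) hT
  exact hASM G a l l' E w' T' ha hl hE hcomb

end Pool.Agent.IM55.CL
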