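import Pool.Agent.Work.MP_55ff09_co.CL.Stmts

/-!
# MP_55ff09_co, block CL, item IND: induced subgraphs of induced minors
-/

set_option autoImplicit false

namespace Pool.Agent.IM55.CL

open SimpleGraph Pool.Agent.IM55 Pool.Agent.IM55.PL

theorem i_IND : S_IND := by
  intro W W' V H H' G f hf hadj ⟨X, h1, h2, h3⟩
  refine ⟨fun u => X (f u), fun u => h1 (f u), fun u v huv => h2 _ _ (fun e => huv (hf e)),
    fun u v huv => ?_⟩
  rw [hadj u v]
  exact h3 _ _ (fun e => huv (hf e))

end Pool.Agent.IM55.CL
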