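import Pool.Agent.Work.MP_55ff09_co.CL.Stmts

/-!
# Item LNK of block CL (MP_55ff09_co): clean linking
-/

set_option autoImplicit false

namespace Pool.Agent.IM55.CL

open SimpleGraph Pool.Agent.IM55 Pool.Agent.IM55.PL

theorem i_LNK (hSTP : S_STP) : S_LNK := by
  intro n q
  refine ⟨(2 * q + 2) ^ q * (n + q), ?_⟩
  intro V _ G I A R₀ E hKM hEI hanti hq hM
  have key : ∀ j, j ≤ q → ∃ D ⊆ E, (2 * q + 2) ^ (q - j) * (n + q) ≤ D.card ∧
      ∀ S, R₀ ⊆ S → Disjoint S (UA A D) → j ≤ fo G A D S := by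
    intro j
    induction j with
    | zero => exact fun _ => ⟨E, fun _ h => h, by simpa using hM, fun _ _ _ => Nat.zero_le _⟩
    | succ j ih =>
      intro hj
      obtain ⟨D, hDE, hDc, hD⟩ := ih (by omega)
      have hpos : 1 ≤ (2 * q + 2) ^ (q - (j + 1)) := Nat.one_le_pow _ _ (by omega)
      have hN : n + q ≤ (2 * q + 2) ^ (q - (j + 1)) * (n + q) := Nat.le_mul_of_pos_left _ hpos
      have hstep : (2 * j + 2) * ((2 * q + 2) ^ (q - (j + 1)) * (n + q)) ≤ D.card := by
        refine le_trans ?_ hDc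
        have h1 : q - j = (q - (j + 1)) + 1 := by omega
        rw [h1, pow_succ]
        calc (2 * j + 2) * ((2 * q + 2) ^ (q - (j + 1)) * (n + q))
            ≤ (2 * q + 2) * ((2 * q + 2) ^ (q - (j + 1)) * (n + q)) :=
              Nat.mul_le_mul_right _ (by omega)
          _ = (2 * q + 2) ^ (q - (j + 1)) * (2 * q + 2) * (n + q) := by ring
      obtain ⟨D', hD'D, hD'c, hD'⟩ := hSTP G I A R₀ q j
        ((2 * q + 2) ^ (q - (j + 1)) * (n + q)) D hKM (hDE.trans hEI)
        (fun e he => hanti e (hDE he)) hq (by omega) (by omega) hstep hD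
      exact ⟨D', hD'D.trans hDE, hD'c, hD'⟩
  obtain ⟨D, hDE, hDc, hD⟩ := key q le_rfl
  refine ⟨D, hDE, ?_, hD⟩
  rw [Nat.sub_self, pow_zero, one_mul] at hDc
  omega

end Pool.Agent.IM55.CL
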