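import Pool.Agent.Work.MP_55ff09_co.CL.Stmts

/-! MP_55ff09_co, block CL, item MNP (Menger inside `R₀`). -/

set_option autoImplicit false

namespace Pool.Agent.IM55.CL

open SimpleGraph Pool.Agent.IM55 Pool.Agent.IM55.PL

namespace XMNP

variable {V : Type}

/-- a small separator gives a cheap small set -/
theorem sep {G : SimpleGraph V} {P R₀ T : Set V} (hP : P ⊆ R₀)
    (hT : ∀ Q, Cr G ((R₀ ∪ opN G R₀) \ P) (opN G P) (opN G R₀) Q → (Q ∩ T).Nonempty) :
    ∃ S, P ⊆ S ∧ S ⊆ R₀ ∧ opN G S ⊆ T := by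
  set U := (R₀ ∪ opN G R₀) \ P with hU
  let C : Set V := {x | ∃ Q : Set V, x ∈ Q ∧ (G.induce Q).Connected ∧ Q ⊆ U \ T ∧
    (Q ∩ opN G P).Nonempty}
  have hC : C ⊆ R₀ := by
    rintro x ⟨Q, hx, hQ, hQU, hQP⟩
    have h1 := (hQU hx).1
    rcases h1.1 with h2 | h2
    · exact h2
    · exfalso
      obtain ⟨y, hy, hyT⟩ := hT Q ⟨hQ, fun y hy => (hQU hy).1, hQP, ⟨x, hx, h2⟩⟩
      exact (hQU hy).2 hyT
  refine ⟨P ∪ C, Set.subset_union_left, Set.union_subset hP hC, ?_⟩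
  rintro x ⟨hxS, y, hy, hyx⟩
  by_contra hxT
  have hxP : x ∉ P := fun h => hxS (Or.inl h)
  have hyR : y ∈ R₀ := (Set.union_subset hP hC) hy
  have hxU : x ∈ U := by
    refine ⟨?_, hxP⟩
    by_cases h : x ∈ R₀
    · exact Or.inl h
    · exact Or.inr ⟨h, y, hyR, hyx⟩
  rcases hy with hyP | hyC
  · apply hxS
    refine Or.inr ⟨{x}, rfl, conn_singleton x, ?_, ⟨x, rfl, hxP, y, hyP, hyx⟩⟩
    rintro z rfl
    exact ⟨hxU, hxT⟩
  · obtain ⟨Q, hyQ, hQ, hQU, hQP⟩ := hyC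
    apply hxS
    refine Or.inr ⟨Q ∪ {x}, Or.inr rfl,
      conn_union hQ (conn_singleton x) ⟨y, hyQ, x, rfl, Or.inr hyx⟩, ?_, ?_⟩
    · rintro z (hz | rfl)
      · exact hQU hz
      · exact ⟨hxU, hxT⟩
    · obtain ⟨z, hz, hz'⟩ := hQP
      exact ⟨z, Or.inl hz, hz'⟩

end XMNP

theorem i_MNP (hMEN : S_MEN) (hIPA : S_IPA) : S_MNP := by
  intro V _ G I A P R₀ q hP hR hq hmin
  classical
  rcases hMEN G ((R₀ ∪ opN G R₀) \ P) (opN G P) (opN G R₀) q with ⟨Q, hQ⟩ | ⟨T, hTU, hTq, hT⟩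
  · have h1 : ∀ c : Fin q, ∃ (w : ℕ → V) (l : ℕ), PC G (Q c) (opN G P) (opN G R₀) w l :=
      fun c => hIPA G _ _ _ (Q c) (hQ.1 c c.2)
    choose w l hw using h1
    have hne : ∀ c c' : Fin q, c ≠ c' → Disjoint (rng (w c) (l c)) (rng (w c') (l c')) := by
      intro c c' h
      exact (hQ.2 c c.2 c' c'.2 (fun e => h (Fin.ext e))).mono (hw c).sub (hw c').sub
    have hinj : Function.Injective (fun c : Fin q => w c (l c)) := by
      intro c c' e
      by_contra h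
      exact Set.disjoint_left.1 (hne c c' h) ⟨l c, le_rfl, rfl⟩ ⟨l c', le_rfl, e.symm⟩
    have hrange : Set.range (fun c : Fin q => w c (l c)) = opN G R₀ := by
      apply Set.eq_of_subset_of_ncard_le
      · rintro _ ⟨c, rfl⟩
        exact ((hw c).hB (l c) le_rfl).2 rfl
      · rw [hq, ← Set.image_univ, Set.ncard_image_of_injective _ hinj, Set.ncard_univ,
          Nat.card_eq_fintype_card, Fintype.card_fin]
      · exact Set.toFinite _
    have h2 : ∀ z : V, ∃ (M : Set V) (u : V), z ∈ opN G R₀ →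
        ∃ c : Fin q, w c (l c) = z ∧ M = rng (w c) (l c) ∧ u = w c 0 := by
      intro z
      by_cases hz : z ∈ opN G R₀
      · rw [← hrange] at hz
        obtain ⟨c, hc⟩ := hz
        exact ⟨_, _, fun _ => ⟨c, hc, rfl, rfl⟩⟩
      · exact ⟨∅, z, fun h => absurd h hz⟩
    choose M u hMu using h2
    refine ⟨M, u, fun z hz => ?_⟩
    obtain ⟨c, hcz, hM, hu⟩ := hMu z hz
    have hpc := hw c
    have hsub : ∀ i ≤ l c, w c i ∈ (R₀ ∪ opN G R₀) \ P := fun i hi =>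
      (hQ.1 c c.2).sub (hpc.sub ⟨i, hi, rfl⟩)
    refine ⟨?_, ?_, ?_, ?_, ?_, ?_, ?_⟩
    · rw [hM]
      exact rng_conn hpc.ip
    · rw [hM]
      exact ⟨l c, le_rfl, hcz⟩
    · rw [hM]
      rintro _ ⟨i, hi, rfl⟩
      rcases (hsub i hi).1 with h | h
      · exact Or.inl h
      · have := (hpc.hB i hi).1 h
        subst this
        exact Or.inr hcz
    · rw [hM, Set.disjoint_left]
      rintro _ ⟨i, hi, rfl⟩
      exact (hsub i hi).2
    · rw [hM, hu]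
      exact ⟨0, Nat.zero_le _, rfl⟩
    · rw [hM, hu]
      rintro _ ⟨i, hi, rfl⟩
      constructor
      · intro h
        rw [(hpc.hA i hi).1 h]
      · intro h
        rw [h]
        exact (hpc.hA 0 (Nat.zero_le _)).2 rfl
    · intro z' hz' hzz
      obtain ⟨c', hcz', hM', -⟩ := hMu z' hz'
      rw [hM, hM']
      apply hne
      rintro rfl
      exact hzz (hcz.symm.trans hcz')
  · exfalso
    obtain ⟨S, hPS, hSR, hST⟩ := XMNP.sep hP hT
    obtain ⟨i, hi, hA⟩ := hR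
    have h1 := hmin S hPS ⟨i, hi, fun x hx => hA x (hSR hx)⟩
    have h2 := Set.ncard_le_ncard hST (Set.toFinite T)
    omega

end Pool.Agent.IM55.CL
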