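import Pool.Agent.Work.MP_55ff09_co.CL.Stmts

/-!
# MP_55ff09_co, block CL, item MNQ: Menger with contracted branch sets
-/

set_option autoImplicit false

namespace Pool.Agent.IM55.CL

open SimpleGraph Pool.Agent.IM55 Pool.Agent.IM55.PL

namespace XMNQ

variable {V : Type}

/-- `x` is mapped to `a` when the branch sets `A d`, `d ∈ D`, are contracted to `r d` -/
def Rl (A : ℕ → Set V) (D : Finset ℕ) (r : ℕ → V) (x a : V) : Prop :=
  (x ∉ UA A D ∧ a = x) ∨ ∃ d ∈ D, x ∈ A d ∧ a = r d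

/-- the contracted graph -/
def GQ (G : SimpleGraph V) (A : ℕ → Set V) (D : Finset ℕ) (r : ℕ → V) : SimpleGraph V where
  Adj a b := a ≠ b ∧ ∃ x y, G.Adj x y ∧ Rl A D r x a ∧ Rl A D r y b
  symm := ⟨fun a b ⟨h, x, y, h1, h2, h3⟩ => ⟨h.symm, y, x, h1.symm, h3, h2⟩⟩
  loopless := ⟨fun a h => h.1 rfl⟩

theorem rl_out {A : ℕ → Set V} {D : Finset ℕ} {r : ℕ → V} (hr : ∀ d ∈ D, r d ∈ A d) {x a : V}
    (ha : a ∉ UA A D) (h : Rl A D r x a) : x = a := by
  rcases h with ⟨-, h⟩ | ⟨d, hd, -, h⟩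
  · exact h.symm
  · exact absurd ⟨d, hd, by rw [h]; exact hr d hd⟩ ha

theorem rl_in {A : ℕ → Set V} {D : Finset ℕ} {r : ℕ → V} (hr : ∀ d ∈ D, r d ∈ A d)
    (hdis : ∀ d ∈ D, ∀ d' ∈ D, d ≠ d' → Disjoint (A d) (A d')) {x : V} {d : ℕ} (hd : d ∈ D)
    (h : Rl A D r x (r d)) : x ∈ A d := by
  rcases h with ⟨h1, h2⟩ | ⟨d', hd', h1, h2⟩
  · exact absurd ⟨d, hd, by rw [← h2]; exact hr d hd⟩ h1
  · by_cases e : d = d'
    · rw [e]; exact h1
    · exact absurd (hr d hd) (fun h3 => Set.disjoint_left.1 (hdis d hd d' hd' e) h3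
        (by rw [h2]; exact hr d' hd'))

open Classical in
/-- the case of a small cut -/
theorem cut [Finite V] {G : SimpleGraph V} {A : ℕ → Set V} {R₀ : Set V} {D : Finset ℕ} {q : ℕ}
    {r : ℕ → V} (hr : ∀ d ∈ D, r d ∈ A d)
    (hdis : ∀ d ∈ D, ∀ d' ∈ D, d ≠ d' → Disjoint (A d) (A d'))
    (hanti : ∀ d ∈ D, Anti G R₀ (A d))
    (hq : ∀ S, R₀ ⊆ S → Disjoint S (UA A D) → q ≤ fo G A D S)
    (T : Set V) (hT : T.ncard < q)
    (hcut : ∀ Q, Cr (GQ G A D r) {a | a ∉ R₀ ∧ (a ∈ UA A D → ∃ d ∈ D, a = r d)} (opN G R₀)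
      {a | ∃ d ∈ D, a = r d} Q → (Q ∩ T).Nonempty) : False := by
  set U' : Set V := {a | a ∉ R₀ ∧ (a ∈ UA A D → ∃ d ∈ D, a = r d)} with hU'
  set B' : Set V := {a | ∃ d ∈ D, a = r d} with hB'
  have hBU : ∀ a ∈ B', a ∈ UA A D := by
    rintro a ⟨d, hd, rfl⟩
    exact ⟨d, hd, hr d hd⟩
  have hRU : ∀ a ∈ R₀, a ∉ UA A D := by
    rintro a ha ⟨d, hd, had⟩
    exact (hanti d hd a ha a had).1 rfl
  set C : Set V := {x | x ∉ R₀ ∧ x ∉ UA A D ∧ x ∉ T ∧ ∃ K : Set V,
    ((GQ G A D r).induce K).Connected ∧ K ⊆ U' ∧ Disjoint K T ∧ Disjoint K B' ∧ x ∈ K ∧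
      (K ∩ opN G R₀).Nonempty} with hC
  have hSU : Disjoint (R₀ ∪ C) (UA A D) := by
    rw [Set.disjoint_left]
    rintro a (ha | ha)
    · exact hRU a ha
    · exact ha.2.1
  have h1 : opN G (R₀ ∪ C) \ UA A D ⊆ T \ B' := by
    rintro x ⟨⟨hxS, s, hs, hsx⟩, hxU⟩
    refine ⟨?_, fun h => hxU (hBU x h)⟩
    by_contra hxT
    have hxR : x ∉ R₀ := fun h => hxS (Or.inl h)
    have hxU' : x ∈ U' := ⟨hxR, fun h => absurd h hxU⟩
    have hxB : x ∉ B' := fun h => hxU (hBU x h)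
    apply hxS
    right
    rcases hs with hs | hs
    · exact ⟨hxR, hxU, hxT, {x}, conn_singleton x, by
          intro y hy
          rw [Set.mem_singleton_iff] at hy
          rw [hy]; exact hxU', Set.disjoint_singleton_left.2 hxT,
        Set.disjoint_singleton_left.2 hxB, rfl, x, rfl, hxR, s, hs, hsx⟩
    · obtain ⟨hsR, hsU, hsT, K, hK1, hK2, hK3, hK4, hK5, hK6⟩ := hs
      refine ⟨hxR, hxU, hxT, K ∪ {x}, conn_union hK1 (conn_singleton x) ?_, ?_, ?_, ?_,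
        Or.inr rfl, ?_⟩
      · exact ⟨s, hK5, x, rfl, Or.inr ⟨hsx.ne, s, x, hsx, Or.inl ⟨hsU, rfl⟩, Or.inl ⟨hxU, rfl⟩⟩⟩
      · rintro y (hy | hy)
        · exact hK2 hy
        · rw [Set.mem_singleton_iff] at hy
          rw [hy]; exact hxU'
      · exact Set.disjoint_union_left.2 ⟨hK3, Set.disjoint_singleton_left.2 hxT⟩
      · exact Set.disjoint_union_left.2 ⟨hK4, Set.disjoint_singleton_left.2 hxB⟩
      · exact hK6.mono (Set.inter_subset_inter_left _ Set.subset_union_left)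
  have h2 : ∀ d ∈ D, (A d ∩ opN G (R₀ ∪ C)).Nonempty → r d ∈ T ∩ B' := by
    rintro d hd ⟨y, hyA, hyS, s, hs, hsy⟩
    refine ⟨?_, d, hd, rfl⟩
    by_contra hrT
    rcases hs with hs | hs
    · exact (hanti d hd s hs y hyA).2 hsy
    · obtain ⟨hsR, hsU, hsT, K, hK1, hK2, hK3, hK4, hK5, hK6⟩ := hs
      have hsr : s ≠ r d := by
        rintro rfl
        exact hsU ⟨d, hd, hr d hd⟩
      have hcr : Cr (GQ G A D r) U' (opN G R₀) B' (K ∪ {r d}) := by
        refine ⟨conn_union hK1 (conn_singleton _) ?_, ?_, ?_, ?_⟩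
        · exact ⟨s, hK5, r d, rfl, Or.inr ⟨hsr, s, y, hsy, Or.inl ⟨hsU, rfl⟩,
            Or.inr ⟨d, hd, hyA, rfl⟩⟩⟩
        · rintro z (hz | hz)
          · exact hK2 hz
          · rw [Set.mem_singleton_iff] at hz
            rw [hz]
            exact ⟨fun h => hRU _ h ⟨d, hd, hr d hd⟩, fun _ => ⟨d, hd, rfl⟩⟩
        · exact hK6.mono (Set.inter_subset_inter_left _ Set.subset_union_left)
        · exact ⟨r d, Or.inr rfl, d, hd, rfl⟩
      obtain ⟨z, hz, hzT⟩ := hcut _ hcr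
      rcases hz with hz | hz
      · exact Set.disjoint_left.1 hK3 hz hzT
      · rw [Set.mem_singleton_iff] at hz
        rw [hz] at hzT
        exact hrT hzT
  have hfo : fo G A D (R₀ ∪ C) ≤ T.ncard := by
    unfold fo
    have e1 : (opN G (R₀ ∪ C) \ UA A D).ncard ≤ (T \ B').ncard :=
      Set.ncard_le_ncard h1 (Set.toFinite _)
    have e2 : (D.filter fun d => (A d ∩ opN G (R₀ ∪ C)).Nonempty).card ≤ (T ∩ B').ncard := by
      rw [← Set.ncard_coe_finset]
      refine Set.ncard_le_ncard_of_injOn r ?_ ?_ (Set.toFinite _)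
      · intro d hd
        rw [Finset.mem_coe, Finset.mem_filter] at hd
        exact h2 d hd.1 hd.2
      · intro d hd d' hd' e
        rw [Finset.mem_coe, Finset.mem_filter] at hd hd'
        by_contra hne
        exact Set.disjoint_left.1 (hdis d hd.1 d' hd'.1 hne) (hr d hd.1)
          (by rw [e]; exact hr d' hd'.1)
    have e3 : (T \ B').ncard + (T ∩ B').ncard = T.ncard := by
      rw [add_comm]
      exact Set.ncard_inter_add_ncard_diff_eq_ncard T B' (Set.toFinite _)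
    omega
  have := hq (R₀ ∪ C) Set.subset_union_left hSU
  omega

/-- from a connected set of the contracted graph with only one contracted vertex -/
theorem lift {G : SimpleGraph V} {A : ℕ → Set V} {D : Finset ℕ} {r : ℕ → V}
    (hr : ∀ d ∈ D, r d ∈ A d)
    (hdis : ∀ d ∈ D, ∀ d' ∈ D, d ≠ d' → Disjoint (A d) (A d'))
    (hcon : ∀ d ∈ D, (G.induce (A d)).Connected) {C : Set V} {d : ℕ} (hd : d ∈ D)
    (hC : ((GQ G A D r).induce C).Connected) (hrC : r d ∈ C)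
    (hU : ∀ a ∈ C, a ≠ r d → a ∉ UA A D) :
    (G.induce ((C \ {r d}) ∪ A d)).Connected := by
  set X : Set V := (C \ {r d}) ∪ A d with hX
  have hrX : r d ∈ X := Or.inr (hr d hd)
  have hA : A d ⊆ cmp G X (r d) := subset_cmp (hcon d hd) (hr d hd) Set.subset_union_right
  have hsub : C ⊆ cmp G X (r d) := by
    refine conn_subset hC ⟨r d, hrC, mem_cmp_self hrX⟩ ?_
    intro u huC hu w hwC ha
    by_cases hw : w = r d
    · rw [hw]
      exact mem_cmp_self hrX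
    · have hwX : w ∈ X := Or.inl ⟨hwC, hw⟩
      obtain ⟨-, x, y, hxy, hx, hy⟩ := ha
      have hyw : y = w := rl_out hr (hU w hwC hw) hy
      rw [hyw] at hxy
      by_cases hur : u = r d
      · rw [hur] at hx
        exact cmp_adj (hA (rl_in hr hdis hd hx)) hwX hxy
      · have hxu : x = u := rl_out hr (hU u huC hur) hx
        rw [hxu] at hxy
        exact cmp_adj hu hwX hxy
  have hXe : X = cmp G X (r d) := by
    apply Set.Subset.antisymm
    · rintro z (hz | hz)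
      · exact hsub hz.1
      · exact hA hz
    · exact cmp_subset
  rw [hXe]
  exact cmp_connected hrX

end XMNQ

open XMNQ in
theorem i_MNQ (h1 : S_MEN) (h2 : S_MPC) : S_MNQ := by
  classical
  intro V _ G I A R₀ D q hK hDI hanti hcard hq
  -- representatives
  have hne : ∀ d ∈ D, (A d).Nonempty := by
    intro d hd
    obtain ⟨⟨x, hx⟩⟩ := (hK.conn d (hDI hd)).nonempty
    exact ⟨x, hx⟩
  by_cases hA' : (opN G R₀) = ∅
  · refine ⟨fun _ => ∅, ?_⟩
    intro z hz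
    rw [hA'] at hz
    exact absurd hz (Set.notMem_empty z)
  obtain ⟨z0, hz0⟩ := Set.nonempty_iff_ne_empty.2 hA'
  have hchoose : ∃ r : ℕ → V, ∀ d ∈ D, r d ∈ A d := by
    refine ⟨fun d => if h : d ∈ D then (hne d h).some else z0, fun d hd => ?_⟩
    simp only [hd, dif_pos]
    exact (hne d hd).some_mem
  obtain ⟨r, hr⟩ := hchoose
  have hdis : ∀ d ∈ D, ∀ d' ∈ D, d ≠ d' → Disjoint (A d) (A d') := fun d hd d' hd' =>
    hK.dis d (hDI hd) d' (hDI hd')
  have hcon : ∀ d ∈ D, (G.induce (A d)).Connected := fun d hd => hK.conn d (hDI hd)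
  have hopU : ∀ a ∈ opN G R₀, a ∉ UA A D := by
    rintro a ⟨-, s, hs, hsa⟩ ⟨d, hd, had⟩
    exact (hanti d hd s hs a had).2 hsa
  rcases h1 (GQ G A D r) {a | a ∉ R₀ ∧ (a ∈ UA A D → ∃ d ∈ D, a = r d)} (opN G R₀)
    {a | ∃ d ∈ D, a = r d} q with ⟨Q, hQ1, hQ2⟩ | ⟨T, -, hT, hcut⟩
  swap
  · exact (cut hr hdis hanti hq T hT hcut).elim
  have hone : ∀ c : ℕ, ∃ (X : Set V) (u : V) (d : ℕ), c < q →
      d ∈ D ∧ u ∈ opN G R₀ ∧ u ∈ Q c ∧ r d ∈ Q c ∧ u ∈ X ∧ (G.induce X).Connected ∧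
        X ⊆ (Q c \ UA A D) ∪ A d ∧ A d ⊆ X := by
    intro c
    by_cases hc : c < q
    · obtain ⟨hcn, hsub, ⟨a, haQ, haA⟩, ⟨b, hbQ, hbB⟩⟩ := hQ1 c hc
      obtain ⟨C', hC'Q, hC'c, u, hu, v, hv, huA, hvB, -, hvu⟩ :=
        h2 (GQ G A D r) (Q c) (fun x => x ∈ opN G R₀) (fun x => ∃ d ∈ D, x = r d) hcn
          ⟨a, haQ, haA⟩ ⟨b, hbQ, hbB⟩
      obtain ⟨d, hd, rfl⟩ := hvB
      have hU : ∀ a ∈ C', a ≠ r d → a ∉ UA A D := by
        intro a ha hne haU
        exact hne (hvu a ha ((hsub (hC'Q ha)).2 haU))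
      refine ⟨(C' \ {r d}) ∪ A d, u, d, fun _ => ⟨hd, huA, hC'Q hu, hC'Q hv, ?_, ?_, ?_, ?_⟩⟩
      · refine Or.inl ⟨hu, ?_⟩
        intro h
        rw [Set.mem_singleton_iff] at h
        exact hopU u huA ⟨d, hd, by rw [h]; exact hr d hd⟩
      · exact lift hr hdis hcon hd hC'c hv hU
      · rintro z (hz | hz)
        · exact Or.inl ⟨hC'Q hz.1, hU z hz.1 hz.2⟩
        · exact Or.inr hz
      · exact Set.subset_union_right
    · exact ⟨∅, z0, 0, fun h => absurd h hc⟩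
  choose X u d hX using hone
  have hinj : ∀ c < q, ∀ c' < q, u c = u c' → c = c' := by
    intro c hc c' hc' e
    by_contra hne
    have h3 := (hX c hc).2.2.1
    have h4 := (hX c' hc').2.2.1
    rw [← e] at h4
    exact Set.disjoint_left.1 (hQ2 c hc c' hc' hne) h3 h4
  have hsurj : ∀ z ∈ opN G R₀, ∃ c, c < q ∧ u c = z := by
    have himg : (u '' {c | c < q}) = opN G R₀ := by
      apply Set.eq_of_subset_of_ncard_le
      · rintro _ ⟨c, hc, rfl⟩
        exact (hX c hc).2.1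
      · rw [hcard, Set.ncard_image_of_injOn]
        · have : ({c | c < q} : Set ℕ) = ↑(Finset.range q) := by
            ext c
            simp
          rw [this, Set.ncard_coe_finset, Finset.card_range]
        · intro c hc c' hc' e
          exact hinj c hc c' hc' e
      · exact Set.toFinite _
    intro z hz
    rw [← himg] at hz
    obtain ⟨c, hc, e⟩ := hz
    exact ⟨c, hc, e⟩
  have hsel : ∃ γ : V → ℕ, ∀ z ∈ opN G R₀, γ z < q ∧ u (γ z) = z := by
    refine ⟨fun z => if h : z ∈ opN G R₀ then (hsurj z h).choose else 0, fun z hz => ?_⟩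
    simp only [hz, dif_pos]
    exact (hsurj z hz).choose_spec
  obtain ⟨γ, hγ⟩ := hsel
  refine ⟨fun z => X (γ z), fun z hz => ?_⟩
  obtain ⟨hc, huz⟩ := hγ z hz
  obtain ⟨hdD, -, -, hrQ, huX, hXc, hXs, hAX⟩ := hX (γ z) hc
  refine ⟨hXc, by
    have := huX
    rw [huz] at this
    exact this, ?_, ?_⟩
  · rw [Set.disjoint_left]
    intro x hx hxR
    rcases hXs hx with h | h
    · exact ((hQ1 (γ z) hc).sub h.1).1 hxR
    · exact (hanti _ hdD x hxR x h).1 rfl
  · intro z' hz' hne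
    obtain ⟨hc', huz'⟩ := hγ z' hz'
    obtain ⟨hdD', -, -, hrQ', huX', hXc', hXs', hAX'⟩ := hX (γ z') hc'
    have hcc : γ z ≠ γ z' := by
      intro e
      apply hne
      rw [← huz, ← huz', e]
    have hdd : d (γ z) ≠ d (γ z') := by
      intro e
      rw [← e] at hrQ'
      exact Set.disjoint_left.1 (hQ2 _ hc _ hc' hcc) hrQ hrQ'
    constructor
    · rw [Set.disjoint_left]
      intro x hx hx'
      rcases hXs hx with h | h
      · rcases hXs' hx' with h' | h'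
        · exact Set.disjoint_left.1 (hQ2 _ hc _ hc' hcc) h.1 h'.1
        · exact h.2 ⟨_, hdD', h'⟩
      · rcases hXs' hx' with h' | h'
        · exact h'.2 ⟨_, hdD, h⟩
        · exact Set.disjoint_left.1 (hdis _ hdD _ hdD' hdd) h h'
    · exact (hK.adj _ (hDI hdD) _ (hDI hdD') hdd).mono hAX hAX'

end Pool.Agent.IM55.CL
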