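import Pool.Agent.Work.MP_55ff09_co.CL.Stmts

/-!
# MP_55ff09_co, block CL, item OUT
-/

set_option autoImplicit false

namespace Pool.Agent.IM55.CL

open SimpleGraph Pool.Agent.IM55 Pool.Agent.IM55.PL

/-- OUT. -/
theorem i_OUT : S_OUT := by
  intro V _ G I A R hK hS
  classical
  refine ⟨I.filter fun i => Disjoint (A i) (opN G R), Finset.filter_subset _ _, ?_, ?_⟩
  · have h1 : (I.filter fun i => ¬ Disjoint (A i) (opN G R)).card ≤ (opN G R).ncard := by
      have h2 : ∀ i ∈ I.filter (fun i => ¬ Disjoint (A i) (opN G R)),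
          ∃ x, x ∈ A i ∧ x ∈ opN G R := by
        intro i hi
        rw [Finset.mem_filter] at hi
        exact Set.not_disjoint_iff.1 hi.2
      rcases Finset.eq_empty_or_nonempty (I.filter fun i => ¬ Disjoint (A i) (opN G R)) with
        h0 | ⟨i0, hi0⟩
      · rw [h0, Finset.card_empty]
        exact Nat.zero_le _
      obtain ⟨x0, -, -⟩ := h2 i0 hi0
      have : Nonempty V := ⟨x0⟩
      choose! f hf using h2
      rw [← Set.ncard_coe_finset]
      refine Set.ncard_le_ncard_of_injOn f (fun i hi => (hf i hi).2) ?_ (Set.toFinite _)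
      intro i hi j hj hij
      by_contra hne
      have hi' := hf i hi
      have hj' := hf j hj
      rw [← hij] at hj'
      have hiI : i ∈ I := (Finset.mem_filter.1 hi).1
      have hjI : j ∈ I := (Finset.mem_filter.1 hj).1
      exact Set.disjoint_left.1 (hK.dis i hiI j hjI hne) hi'.1 hj'.1
    have h3 := Finset.card_filter_add_card_filter_not (s := I)
      (fun i => Disjoint (A i) (opN G R))
    omega
  · intro e he
    rw [Finset.mem_filter] at he
    obtain ⟨heI, hd⟩ := he
    rcases Set.eq_empty_or_nonempty (A e ∩ R) with h0 | h0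
    · intro x hx y hy
      have hyR : y ∉ R := fun h => by
        have : y ∈ A e ∩ R := ⟨hy, h⟩
        rw [h0] at this
        exact this
      refine ⟨fun h => hyR (h ▸ hx), fun h => ?_⟩
      exact Set.disjoint_left.1 hd hy ⟨hyR, x, hx, h⟩
    · exfalso
      have h1 : A e ⊆ R := by
        refine conn_subset (hK.conn e heI) h0 ?_
        intro u _ huR v hv huv
        by_contra hvR
        exact Set.disjoint_left.1 hd hv ⟨hvR, u, huR, huv⟩
      obtain ⟨j, hj, ha⟩ := hS
      by_cases hej : e = j
      · obtain ⟨x, hx, hxR⟩ := h0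
        rw [← hej] at ha
        exact (ha x hxR x hx).1 rfl
      · obtain ⟨x, hx, y, hy, h⟩ := hK.adj e heI j hj hej
        have h2 := ha x (h1 hx) y hy
        exact h.elim h2.1 h2.2

end Pool.Agent.IM55.CL
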