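import Pool.Agent.Work.MP_55ff09_co.CL.Stmts

/-!
# MP_55ff09_co, block CL, item PTH: an induced path of middle cost
-/

set_option autoImplicit false

namespace Pool.Agent.IM55.CL

open SimpleGraph Pool.Agent.IM55 Pool.Agent.IM55.PL

namespace XPTH

variable {V : Type} {G : SimpleGraph V}

/-- subsets of small sets are small -/
theorem sm_mono {I : Finset ℕ} {A : ℕ → Set V} {S T : Set V} (h : Sm G I A T) (hST : S ⊆ T) :
    Sm G I A S := by
  obtain ⟨i, hi, ha⟩ := h
  exact ⟨i, hi, ha.mono hST subset_rfl⟩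

/-- the beginning of an induced path -/
theorem ip_le {w : ℕ → V} {l j : ℕ} (h : IP G w l) (hj : j ≤ l) : IP G w j where
  adj i hi := h.adj i (by omega)
  inj a ha b hb := h.inj a (by omega) b (by omega)
  ind a ha b hb := h.ind a (by omega) b (by omega)

/-- a set with a small closed neighbourhood is small -/
theorem sm_of_clN [Finite V] {I : Finset ℕ} {A : ℕ → Set V} (hK : KM G I A) (X : Set V)
    (h : (clN G X).ncard < I.card) : Sm G I A X := by
  by_contra hn
  have h1 : ∀ i ∈ I, (clN G X ∩ A i).Nonempty := by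
    intro i hi
    rw [← touch_iff_clN]
    by_contra ht
    exact hn ⟨i, hi, not_touch_iff.1 ht⟩
  have hne : Nonempty V := by
    by_contra hV
    rw [not_nonempty_iff] at hV
    have hI : 0 < I.card := by omega
    obtain ⟨i, hi⟩ := Finset.card_pos.1 hI
    obtain ⟨y, -⟩ := h1 i hi
    exact hV.elim y
  choose! f hf using h1
  have h2 : I.card ≤ (clN G X).ncard := by
    rw [← Set.ncard_coe_finset I]
    refine Set.ncard_le_ncard_of_injOn f (fun i hi => (hf i hi).1) ?_ (Set.toFinite _)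
    intro i hi j hj hij
    by_contra hne'
    have e2 : f i ∈ A j := by
      rw [hij]
      exact (hf j hj).2
    exact Set.disjoint_left.1 (hK.dis i hi j hj hne') (hf i hi).2 e2
  omega

theorem opN_single [Finite V] {D : ℕ} (hG : DegLe G D) (x : V) : (opN G {x}).ncard ≤ D := by
  refine le_trans (Set.ncard_le_ncard ?_ (Set.toFinite _)) (hG x)
  rintro y ⟨-, z, hz, hzy⟩
  rw [Set.mem_singleton_iff] at hz
  subst hz
  exact hzy

theorem opN_union [Finite V] (S T : Set V) :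
    (opN G (S ∪ T)).ncard ≤ (opN G S).ncard + (opN G T).ncard := by
  refine le_trans (Set.ncard_le_ncard ?_ (Set.toFinite _)) (Set.ncard_union_le _ _)
  rintro y ⟨hy, z, hz | hz, hzy⟩
  · exact Or.inl ⟨fun h => hy (Or.inl h), z, hz, hzy⟩
  · exact Or.inr ⟨fun h => hy (Or.inr h), z, hz, hzy⟩

theorem rng_zero (w : ℕ → V) : rng w 0 ⊆ {w 0} := by
  rintro y ⟨i, hi, rfl⟩
  have : i = 0 := by omega
  subst this
  rfl

theorem rng_succ (w : ℕ → V) (j : ℕ) : rng w (j + 1) ⊆ rng w j ∪ {w (j + 1)} := by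
  rintro y ⟨i, hi, rfl⟩
  rcases Nat.lt_or_ge j i with h | h
  · have : i = j + 1 := by omega
    subst this
    exact Or.inr rfl
  · exact Or.inl ⟨i, h, rfl⟩

end XPTH

open XPTH

theorem i_PTH (hBAL : S_BAL) (hCMP : S_CMP) (hSMU : S_SMU) (hIPA : S_IPA) : S_PTH := by
  intro V _ G D I A k hG hK hDk hI
  have hI1 : 0 < I.card := by omega
  obtain ⟨i₀, hi₀⟩ := Finset.card_pos.1 hI1
  obtain ⟨⟨v, hv⟩⟩ := (hK.conn i₀ hi₀).nonempty
  obtain ⟨W, hWs, -, hW⟩ := hBAL G I A k v hK (by omega)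
  obtain ⟨i, hi, hWi⟩ := hWs
  obtain ⟨⟨x, hx⟩⟩ := (hK.conn i hi).nonempty
  have hxW : x ∉ W := fun h => (hWi x h x hx).1 rfl
  have hcon : (G.induce (A i₀ ∪ A i)).Connected := by
    by_cases h : i₀ = i
    · subst h
      rw [Set.union_self]
      exact hK.conn i₀ hi₀
    · exact conn_union (hK.conn _ hi₀) (hK.conn _ hi) (hK.adj _ hi₀ _ hi h)
  obtain ⟨w, l, hw⟩ := hIPA G Set.univ {v} {x} (A i₀ ∪ A i)
    ⟨hcon, Set.subset_univ _, ⟨v, Or.inl hv, rfl⟩, ⟨x, Or.inr hx, rfl⟩⟩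
  have hw0 : w 0 = v := (hw.hA 0 (Nat.zero_le _)).2 rfl
  have hwl : w l = x := (hw.hB l le_rfl).2 rfl
  have ha : ∀ S, rng w l ⊆ S → Sm G I A S → k < (opN G S).ncard := by
    intro S hS hSm
    by_contra hn
    have hn' : (opN G S).ncard ≤ k := by omega
    obtain ⟨R, hRS, hRc, hRl, hRo⟩ := hCMP G S (rng w l) (rng_conn hw.ip) hS
    have h1 := hW R hRc (sm_mono hSm hRS) (hRl ⟨0, Nat.zero_le _, hw0⟩)
      ((Set.ncard_le_ncard hRo (Set.toFinite _)).trans hn')
    exact hxW (h1 (hRl ⟨l, le_rfl, hwl⟩))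
  have hsm1 : ∀ y : V, Sm G I A {y} := by
    intro y
    apply sm_of_clN hK
    have := clN_ncard hG y
    omega
  classical
  have hex : ∃ j, ∀ S, rng w j ⊆ S → Sm G I A S → k < (opN G S).ncard := ⟨l, ha⟩
  have hj := Nat.find_spec hex
  have hjl : Nat.find hex ≤ l := Nat.find_min' hex ha
  have hmin : ∀ m, m < Nat.find hex →
      ¬ ∀ S, rng w m ⊆ S → Sm G I A S → k < (opN G S).ncard := fun m hm => Nat.find_min hex hm
  generalize Nat.find hex = j at hj hjl hmin
  obtain _ | j := j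
  · exfalso
    have h1 := hj {w 0} (rng_zero w) (hsm1 _)
    have h2 := opN_single hG (w 0)
    omega
  · have h1 := hmin j (Nat.lt_succ_self j)
    push Not at h1
    obtain ⟨S, hS1, hS2, hS3⟩ := h1
    have hd := opN_single hG (w (j + 1))
    have hS' : Sm G I A (S ∪ {w (j + 1)}) :=
      hSMU G I A S {w (j + 1)} hK hS2 (hsm1 _) (by omega)
    have hsub : rng w (j + 1) ⊆ S ∪ {w (j + 1)} :=
      (rng_succ w j).trans (Set.union_subset_union_left _ hS1)
    have hcard : (opN G (S ∪ {w (j + 1)})).ncard ≤ k + D := by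
      have := opN_union (G := G) S {w (j + 1)}
      omega
    have hq : ∃ q, ∃ R, rng w (j + 1) ⊆ R ∧ Sm G I A R ∧ (opN G R).ncard = q :=
      ⟨_, _, hsub, hS', rfl⟩
    obtain ⟨R, hR1, hR2, hR3⟩ := Nat.find_spec hq
    refine ⟨w, j + 1, R, Nat.find hq, ip_le hw.ip hjl, hR1, hR2, hR3, ?_, ?_, ?_⟩
    · rw [← hR3]
      exact hj R hR1 hR2
    · exact (Nat.find_min' hq ⟨_, hsub, hS', rfl⟩).trans hcard
    · intro T hT1 hT2
      exact Nat.find_min' hq ⟨T, hT1, hT2, rfl⟩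

end Pool.Agent.IM55.CL
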