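import Pool.Agent.Work.MP_55ff09_co.CL.Stmts

/-!
# MP_55ff09_co, block CL, item SMU: unions of small sets
-/

set_option autoImplicit false

namespace Pool.Agent.IM55.CL

open SimpleGraph Pool.Agent.IM55 Pool.Agent.IM55.PL

namespace XSMU

variable {V : Type}

/-- Some branch set avoids a set with less vertices than there are branch sets. -/
theorem avoid [Finite V] {G : SimpleGraph V} {I : Finset ℕ} {A : ℕ → Set V} (hA : KM G I A)
    (W : Set V) (hW : W.ncard < I.card) : ∃ i ∈ I, Disjoint (A i) W := by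
  classical
  by_contra hcon
  push Not at hcon
  have h1 : ∀ i : I, ∃ v : V, v ∈ A i ∧ v ∈ W := by
    intro i
    exact Set.not_disjoint_iff.1 (hcon i i.2)
  choose f hf1 hf2 using h1
  have h2 : Function.Injective (fun i : I => (⟨f i, hf2 i⟩ : W)) := by
    intro i j hij
    have h3 : f i = f j := congrArg Subtype.val hij
    by_contra hne
    have h4 : (i : ℕ) ≠ j := fun e => hne (Subtype.ext e)
    have h5 := hA.dis i i.2 j j.2 h4
    exact Set.disjoint_left.1 h5 (hf1 i) (h3 ▸ hf1 j)
  have h3 := Nat.card_le_card_of_injective _ h2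
  rw [Nat.card_coe_set_eq] at h3
  simp only [Nat.card_eq_fintype_card, Fintype.card_coe] at h3
  omega

/-- A branch set which avoids the outer boundary of a small set is anticomplete to it. -/
theorem anti {G : SimpleGraph V} {I : Finset ℕ} {A : ℕ → Set V} (hA : KM G I A) {S : Set V}
    (hS : Sm G I A S) {i : ℕ} (hi : i ∈ I) (hd : Disjoint (A i) (opN G S)) : Anti G S (A i) := by
  obtain ⟨j, hj, hSj⟩ := hS
  by_cases hij : i = j
  · exact hij ▸ hSj
  have h1 : Disjoint (A i) S := by
    rw [Set.disjoint_iff_inter_eq_empty]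
    by_contra hne
    have h2 : (A i ∩ S).Nonempty := Set.nonempty_iff_ne_empty.2 hne
    have h3 : A i ⊆ S := by
      refine conn_subset (hA.conn i hi) h2 ?_
      intro x hx hxS y hy hxy
      by_contra hyS
      exact Set.disjoint_left.1 hd hy ⟨hyS, x, hxS, hxy⟩
    obtain ⟨x, hx, y, hy, hxy⟩ := hA.adj i hi j hj hij
    have h4 := hSj x (h3 hx) y hy
    rcases hxy with h | h
    · exact h4.1 h
    · exact h4.2 h
  intro x hx y hy
  refine ⟨fun e => Set.disjoint_left.1 h1 hy (e ▸ hx), fun h => ?_⟩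
  exact Set.disjoint_left.1 hd hy ⟨fun hyS => Set.disjoint_left.1 h1 hy hyS, x, hx, h⟩

end XSMU

/-- **SMU.** Unions of small sets. -/
theorem i_SMU : S_SMU := by
  intro V _ G I A S S' hA hS hS' hc
  obtain ⟨i, hi, hd⟩ := XSMU.avoid hA (opN G S ∪ opN G S')
    (lt_of_le_of_lt (Set.ncard_union_le _ _) hc)
  rw [Set.disjoint_union_right] at hd
  have h1 := XSMU.anti hA hS hi hd.1
  have h2 := XSMU.anti hA hS' hi hd.2
  refine ⟨i, hi, fun x hx y hy => ?_⟩
  rcases hx with hx | hx
  · exact h1 x hx y hy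
  · exact h2 x hx y hy

end Pool.Agent.IM55.CL
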