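import Pool.Agent.Work.MP_55ff09_co.CL.Stmts

/-!
# MP_55ff09_co, block CL, item STP: one step of clean linking
-/

set_option autoImplicit false

namespace Pool.Agent.IM55.CL

open SimpleGraph Pool.Agent.IM55 Pool.Agent.IM55.PL

namespace XSTP

/-- pairwise disjoint subsets of given size -/
theorem blocks (E : Finset ℕ) (m N : ℕ) (h : m * N ≤ E.card) :
    ∃ D : ℕ → Finset ℕ, (∀ i < m, D i ⊆ E) ∧ (∀ i < m, (D i).card = N) ∧
      ∀ i < m, ∀ j < m, i ≠ j → Disjoint (D i) (D j) := by
  classical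
  let f : ℕ → ℕ := fun j => if hj : j < E.card then E.orderEmbOfFin rfl ⟨j, hj⟩ else 0
  have hf : ∀ j, j < E.card → f j ∈ E := by
    intro j hj
    simp only [f, dif_pos hj]
    exact E.orderEmbOfFin_mem rfl _
  have hinj : ∀ a b, a < E.card → b < E.card → f a = f b → a = b := by
    intro a b ha hb hab
    simp only [f, dif_pos ha, dif_pos hb] at hab
    have := (E.orderEmbOfFin rfl).injective hab
    simpa using this
  have hlt : ∀ i < m, ∀ t < N, i * N + t < E.card := by
    intro i hi t ht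
    calc i * N + t < i * N + N := by omega
      _ = (i + 1) * N := by ring
      _ ≤ m * N := Nat.mul_le_mul_right _ hi
      _ ≤ E.card := h
  refine ⟨fun i => (Finset.range N).image (fun t => f (i * N + t)), ?_, ?_, ?_⟩
  · intro i hi x hx
    rw [Finset.mem_image] at hx
    obtain ⟨t, ht, rfl⟩ := hx
    exact hf _ (hlt i hi t (Finset.mem_range.1 ht))
  · intro i hi
    rw [Finset.card_image_of_injOn, Finset.card_range]
    intro a ha b hb hab
    have ha' := Finset.mem_range.1 (Finset.mem_coe.1 ha)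
    have hb' := Finset.mem_range.1 (Finset.mem_coe.1 hb)
    have := hinj _ _ (hlt i hi a ha') (hlt i hi b hb') hab
    omega
  · intro i hi j hj hij
    rw [Finset.disjoint_left]
    intro x hx hx'
    rw [Finset.mem_image] at hx hx'
    obtain ⟨a, ha, rfl⟩ := hx
    obtain ⟨b, hb, hab⟩ := hx'
    have ha' := Finset.mem_range.1 ha
    have hb' := Finset.mem_range.1 hb
    have h1 := hinj _ _ (hlt j hj b hb') (hlt i hi a ha') hab
    apply hij
    rcases Nat.lt_trichotomy i j with h2 | h2 | h2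
    · exfalso
      have h3 : (i + 1) * N ≤ j * N := Nat.mul_le_mul_right _ h2
      have h4 : (i + 1) * N = i * N + N := by ring
      omega
    · exact h2
    · exfalso
      have h3 : (j + 1) * N ≤ i * N := Nat.mul_le_mul_right _ h2
      have h4 : (j + 1) * N = j * N + N := by ring
      omega

variable {V : Type}

/-- a set whose outer boundary (outside the contracted sets of `D`) misses `A e` -/
theorem anti_of [Finite V] {G : SimpleGraph V} {I : Finset ℕ} {A : ℕ → Set V} (hKM : KM G I A)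
    {D D' : Finset ℕ} (hD : D ⊆ I) (hD' : D' ⊆ I) (hdd : Disjoint D D') {S : Set V} {k : ℕ}
    (hS : Disjoint S (UA A D)) (hfo : fo G A D S ≤ k) (hk : k < D.card)
    (hX : Disjoint (opN G S \ UA A D) (UA A D')) :
    ∀ e ∈ D', Anti G S (A e) := by
  classical
  intro e he
  have heI := hD' he
  -- the set `A e` misses the outer boundary of `S`
  have h1 : ∀ x ∈ A e, x ∉ opN G S := by
    intro x hx hxo
    have hxU : x ∈ UA A D' := ⟨e, he, hx⟩
    have hxD : x ∈ UA A D := by
      by_contra hc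
      exact Set.disjoint_left.1 hX ⟨hxo, hc⟩ hxU
    obtain ⟨d, hd, hxd⟩ := hxD
    have hde : d ≠ e := by
      rintro rfl
      exact Finset.disjoint_left.1 hdd hd he
    exact Set.disjoint_left.1 (hKM.dis d (hD hd) e heI hde) hxd hx
  have h2 : ¬ (A e ∩ S).Nonempty := by
    intro hne
    have hsub : A e ⊆ S := conn_subset (hKM.conn e heI) hne (fun u hu huS v hv ha => by
      by_contra hvS
      exact h1 v hv ⟨hvS, u, huS, ha⟩)
    have hall : D.filter (fun d => (A d ∩ opN G S).Nonempty) = D := by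
      rw [Finset.filter_eq_self]
      intro d hd
      have hde : d ≠ e := by
        rintro rfl
        exact Finset.disjoint_left.1 hdd hd he
      obtain ⟨x, hx, y, hy, hxy⟩ := hKM.adj d (hD hd) e heI hde
      have hyS := hsub hy
      have hxS : x ∉ S := fun hxS => Set.disjoint_left.1 hS hxS ⟨d, hd, hx⟩
      rcases hxy with rfl | hxy
      · exact absurd hyS hxS
      · exact ⟨x, hx, hxS, y, hyS, hxy.symm⟩
    have h3 : D.card ≤ fo G A D S := by
      unfold fo
      rw [hall]
      exact Nat.le_add_left _ _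
    omega
  intro x hx y hy
  refine ⟨?_, fun ha => ?_⟩
  · rintro rfl
    exact h2 ⟨x, hy, hx⟩
  · have hyS : y ∉ S := fun hyS => h2 ⟨y, hy, hyS⟩
    exact h1 y hy ⟨hyS, x, hx, ha⟩

/-- contracting more sets far from `S` does not increase the order -/
theorem fo_le [Finite V] {G : SimpleGraph V} {A : ℕ → Set V} {D D' : Finset ℕ} {S : Set V}
    (h : ∀ e ∈ D', Anti G S (A e)) : fo G A (D ∪ D') S ≤ fo G A D S := by
  classical
  unfold fo
  refine Nat.add_le_add (Set.ncard_le_ncard ?_ (Set.toFinite _)) (Finset.card_le_card ?_)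
  · intro x hx
    refine ⟨hx.1, fun hxU => hx.2 ?_⟩
    obtain ⟨d, hd, hxd⟩ := hxU
    exact ⟨d, Finset.mem_union_left _ hd, hxd⟩
  · intro d hd
    rw [Finset.mem_filter, Finset.mem_union] at hd
    rw [Finset.mem_filter]
    obtain ⟨hd1, x, hx, hxS, y, hyS, hxy⟩ := hd
    rcases hd1 with hd1 | hd1
    · exact ⟨hd1, x, hx, hxS, y, hyS, hxy⟩
    · exact absurd hxy (h d hd1 y hyS x hx).2

end XSTP

open XSTP in
/-- **item STP** -/
theorem i_STP (hCNF : S_CNF) (hFSB : S_FSB) (hANT : S_ANT) : S_STP := by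
  classical
  intro V _ G I A R₀ q k N E hKM hEI hR₀ hSm hkq hkN hcard hE
  by_contra hcon
  push Not at hcon
  obtain ⟨D, hDE, hDN, hDD⟩ := blocks E (2 * k + 2) N hcard
  have hex : ∀ i, i < 2 * k + 2 → ∃ S, R₀ ⊆ S ∧ Disjoint S (UA A (D i)) ∧ fo G A (D i) S ≤ k := by
    intro i hi
    obtain ⟨S, h1, h2, h3⟩ := hcon (D i) (hDE i hi) (by rw [hDN i hi])
    exact ⟨S, h1, h2, by omega⟩
  choose! S hS1 hS2 hS3 using hex
  obtain ⟨i, hi, j, hj, hij, hXi, hXj⟩ := hCNF G I A k D
    (fun i => opN G (S i) \ UA A (D i)) hKM (fun i hi => (hDE i hi).trans hEI) hDD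
    (fun i hi => by
      refine le_trans ?_ (hS3 i hi)
      unfold fo
      exact Nat.le_add_right _ _)
  have hAi : ∀ e ∈ D j, Anti G (S i) (A e) :=
    anti_of hKM ((hDE i hi).trans hEI) ((hDE j hj).trans hEI) (hDD i hi j hj hij) (hS2 i hi)
      (hS3 i hi) (by rw [hDN i hi]; exact hkN) hXi
  have hAj : ∀ e ∈ D i, Anti G (S j) (A e) :=
    anti_of hKM ((hDE j hj).trans hEI) ((hDE i hi).trans hEI) (hDD j hj i hi (Ne.symm hij))
      (hS2 j hj) (hS3 j hj) (by rw [hDN j hj]; exact hkN) hXj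
  have hFE : D i ∪ D j ⊆ E := Finset.union_subset (hDE i hi) (hDE j hj)
  have hfi : fo G A (D i ∪ D j) (S i) ≤ k := (fo_le hAi).trans (hS3 i hi)
  have hfj : fo G A (D i ∪ D j) (S j) ≤ k := by
    rw [Finset.union_comm]
    exact (fo_le hAj).trans (hS3 j hj)
  have hdi : Disjoint (S i) (UA A (D i ∪ D j)) := by
    rw [Set.disjoint_left]
    rintro x hx ⟨d, hd, hxd⟩
    rcases Finset.mem_union.1 hd with hd | hd
    · exact Set.disjoint_left.1 (hS2 i hi) hx ⟨d, hd, hxd⟩
    · exact (hAi d hd x hx x hxd).1 rfl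
  have hdj : Disjoint (S j) (UA A (D i ∪ D j)) := by
    rw [Set.disjoint_left]
    rintro x hx ⟨d, hd, hxd⟩
    rcases Finset.mem_union.1 hd with hd | hd
    · exact (hAj d hd x hx x hxd).1 rfl
    · exact Set.disjoint_left.1 (hS2 j hj) hx ⟨d, hd, hxd⟩
  have hq : q ≤ fo G A (D i ∪ D j) (S i ∩ S j) := by
    have hsm : Sm G I A (S i ∩ S j) := by
      have hne : (D j).Nonempty := by
        rw [← Finset.card_pos, hDN j hj]
        omega
      obtain ⟨e, he⟩ := hne
      exact ⟨e, hEI (hDE j hj he), fun x hx y hy => hAi e he x hx.1 y hy⟩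
    have h1 := hSm (S i ∩ S j) (Set.subset_inter (hS1 i hi) (hS1 j hj)) hsm
    have h2 : opN G (S i ∩ S j) \ UA A (D i ∪ D j) = opN G (S i ∩ S j) := by
      apply Disjoint.sdiff_eq_left
      rw [Set.disjoint_left]
      rintro x ⟨-, y, hy, hxy⟩ ⟨d, hd, hxd⟩
      rcases Finset.mem_union.1 hd with hd | hd
      · exact (hAj d hd y hy.2 x hxd).2 hxy
      · exact (hAi d hd y hy.1 x hxd).2 hxy
    unfold fo
    rw [h2]
    exact h1.trans (Nat.le_add_right _ _)
  have hsub := hFSB G A (D i ∪ D j) (S i) (S j) hdi hdj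
  have hun : fo G A (D i ∪ D j) (S i ∪ S j) + 1 ≤ k := by omega
  have hcF : N ≤ (D i ∪ D j).card := by
    rw [← hDN i hi]
    exact Finset.card_le_card Finset.subset_union_left
  obtain ⟨S', h1, h2, h3⟩ := hANT G I A (D i ∪ D j) E R₀ (S i ∪ S j) hKM hFE hEI hR₀
    ((hS1 i hi).trans Set.subset_union_left) (Set.disjoint_union_left.2 ⟨hdi, hdj⟩) (by omega)
  have h4 := hE S' h1 h2
  omega

end Pool.Agent.IM55.CL
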