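import Pool.Agent.Work.MP_55ff09_co.CL.Stmts

/-!
# MP_55ff09_co, block CL, item SUB: submodularity of the outer neighbourhood
-/

set_option autoImplicit false

namespace Pool.Agent.IM55.CL

open SimpleGraph Pool.Agent.IM55 Pool.Agent.IM55.PL

namespace XSUB

variable {V : Type}

theorem sub_union (G : SimpleGraph V) (S T Y : Set V) :
    (opN G (S ∪ T) \ Y) ∪ (opN G (S ∩ T) \ Y) ⊆ (opN G S \ Y) ∪ (opN G T \ Y) := by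
  rintro x (⟨⟨hx1, y, hy, hxy⟩, hY⟩ | ⟨⟨hx1, y, hy, hxy⟩, hY⟩)
  · rcases hy with hy | hy
    · exact Or.inl ⟨⟨fun h => hx1 (Or.inl h), y, hy, hxy⟩, hY⟩
    · exact Or.inr ⟨⟨fun h => hx1 (Or.inr h), y, hy, hxy⟩, hY⟩
  · by_cases hS : x ∈ S
    · exact Or.inr ⟨⟨fun h => hx1 ⟨hS, h⟩, y, hy.2, hxy⟩, hY⟩
    · exact Or.inl ⟨⟨hS, y, hy.1, hxy⟩, hY⟩

theorem sub_inter (G : SimpleGraph V) (S T Y : Set V) :
    (opN G (S ∪ T) \ Y) ∩ (opN G (S ∩ T) \ Y) ⊆ (opN G S \ Y) ∩ (opN G T \ Y) := by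
  rintro x ⟨⟨⟨hx1, -⟩, hY⟩, ⟨⟨-, y, hy, hxy⟩, -⟩⟩
  exact ⟨⟨⟨fun h => hx1 (Or.inl h), y, hy.1, hxy⟩, hY⟩,
    ⟨⟨fun h => hx1 (Or.inr h), y, hy.2, hxy⟩, hY⟩⟩

end XSUB

open XSUB in
theorem i_SUB : S_SUB := by
  intro V _ G S T Y
  rw [← Set.ncard_union_add_ncard_inter (opN G (S ∪ T) \ Y) (opN G (S ∩ T) \ Y),
    ← Set.ncard_union_add_ncard_inter (opN G S \ Y) (opN G T \ Y)]
  exact Nat.add_le_add (Set.ncard_le_ncard (sub_union G S T Y) (Set.toFinite _))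
    (Set.ncard_le_ncard (sub_inter G S T Y) (Set.toFinite _))

end Pool.Agent.IM55.CL
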