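import Pool.Agent.Work.MP_55ff09_co.CL.Stmts

/-!
# MP_55ff09_co, block CL: item TLS (tails)
-/

set_option autoImplicit false

namespace Pool.Agent.IM55.CL

open SimpleGraph Pool.Agent.IM55 Pool.Agent.IM55.PL

theorem i_TLS (h1 : S_MNP) (h2 : S_MNQ) : S_TLS := by
  intro V _ G Δ I A P R₀ D q hΔ hK hPR hSm hq hmin hDI hAnti hfo
  obtain ⟨M, u, hM⟩ := h1 G I A P R₀ q hPR hSm hq hmin
  obtain ⟨X, hX⟩ := h2 G I A R₀ D q hK hDI hAnti hq hfo
  -- a vertex of the outer boundary in `X z` is `z`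
  have hXz : ∀ z ∈ opN G R₀, ∀ y ∈ opN G R₀, y ∈ X z → y = z := by
    intro z hz y hy hyz
    by_contra hne
    have h3 := ((hX z hz).2.2.2 y hy (fun e => hne e.symm)).1
    exact Set.disjoint_left.1 h3 hyz (hX y hy).2.1
  have hMX : ∀ z ∈ opN G R₀, ∀ z' ∈ opN G R₀, z ≠ z' → Disjoint (M z) (X z') := by
    intro z hz z' hz' hne
    rw [Set.disjoint_left]
    intro x hx hx'
    rcases (hM z hz).2.2.1 hx with hxR | hxz
    · exact Set.disjoint_left.1 (hX z' hz').2.2.1 hx' hxR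
    · rw [Set.mem_singleton_iff] at hxz
      subst hxz
      exact hne (hXz z' hz' x hz hx')
  have hTP : ∀ z ∈ opN G R₀, Disjoint (M z ∪ X z) P := by
    intro z hz
    rw [Set.disjoint_union_left]
    exact ⟨(hM z hz).2.2.2.1, (hX z hz).2.2.1.mono_right hPR⟩
  refine ⟨fun z => M z ∪ X z, fun z hz => ?_⟩
  obtain ⟨m1, m2, m3, m4, m5, m6, m7⟩ := hM z hz
  obtain ⟨x1, x2, x3, x4⟩ := hX z hz
  refine ⟨conn_union m1 x1 ⟨z, m2, z, x2, Or.inl rfl⟩, hTP z hz, ?_, ?_, ?_⟩
  · obtain ⟨-, p, hp, hpu⟩ := (m6 (u z) m5).2 rfl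
    exact ⟨p, hp, p, rfl, u z, Or.inl m5, Or.inr hpu⟩
  · refine le_trans (Set.ncard_le_ncard ?_ (Set.toFinite _)) (hΔ (u z))
    rintro p ⟨hp, p', hp', y, hy, hpy⟩
    rw [Set.mem_singleton_iff] at hp'
    subst hp'
    have hyP : y ∉ P := fun h => Set.disjoint_left.1 (hTP z hz) hy h
    have hadj : G.Adj p' y := by
      rcases hpy with rfl | h
      · exact absurd hp hyP
      · exact h
    have hyo : y ∈ opN G P := ⟨hyP, p', hp, hadj⟩
    have hyM : y ∈ M z := by
      rcases hy with h | h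
      · exact h
      · have hyR : y ∉ R₀ := fun h' => Set.disjoint_left.1 x3 h h'
        have : y = z := hXz z hz y ⟨hyR, p', hPR hp, hadj⟩ h
        rw [this]
        exact m2
    have hyu : y = u z := (m6 y hyM).1 hyo
    rw [← hyu]
    exact hadj.symm
  · intro z' hz' hne
    constructor
    · rw [Set.disjoint_union_left, Set.disjoint_union_right, Set.disjoint_union_right]
      exact ⟨⟨m7 z' hz' hne, hMX z hz z' hz' hne⟩,
        ⟨(hMX z' hz' z hz (fun e => hne e.symm)).symm, (x4 z' hz' hne).1⟩⟩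
    · exact (x4 z' hz' hne).2.mono Set.subset_union_right Set.subset_union_right

end Pool.Agent.IM55.CL
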