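import Pool.Agent.Work.MP_55ff09_co.PL.I_IPA
import Pool.Agent.Work.MP_55ff09_co.PL.I_MEN
import Pool.Agent.Work.MP_55ff09_co.PL.I_MPC
import Pool.Agent.Work.MP_55ff09_co.CL.I_ANT
import Pool.Agent.Work.MP_55ff09_co.CL.I_ASM
import Pool.Agent.Work.MP_55ff09_co.CL.I_BAL
import Pool.Agent.Work.MP_55ff09_co.CL.I_BLI
import Pool.Agent.Work.MP_55ff09_co.CL.I_CMB
import Pool.Agent.Work.MP_55ff09_co.CL.I_CMP
import Pool.Agent.Work.MP_55ff09_co.CL.I_CNF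
import Pool.Agent.Work.MP_55ff09_co.CL.I_EMB
import Pool.Agent.Work.MP_55ff09_co.CL.I_FEE
import Pool.Agent.Work.MP_55ff09_co.CL.I_FIN
import Pool.Agent.Work.MP_55ff09_co.CL.I_FSB
import Pool.Agent.Work.MP_55ff09_co.CL.I_HAV
import Pool.Agent.Work.MP_55ff09_co.CL.I_IND
import Pool.Agent.Work.MP_55ff09_co.CL.I_LNK
import Pool.Agent.Work.MP_55ff09_co.CL.I_MNP
import Pool.Agent.Work.MP_55ff09_co.CL.I_MNQ
import Pool.Agent.Work.MP_55ff09_co.CL.I_OUT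
import Pool.Agent.Work.MP_55ff09_co.CL.I_PTH
import Pool.Agent.Work.MP_55ff09_co.CL.I_SMU
import Pool.Agent.Work.MP_55ff09_co.CL.I_STP
import Pool.Agent.Work.MP_55ff09_co.CL.I_SUB
import Pool.Agent.Work.MP_55ff09_co.CL.I_TLS

/-!
# MP_55ff09_co, block CL: the theorem
-/

set_option autoImplicit false

namespace Pool.Agent.IM55.CL

open Pool.Agent.IM55 Pool.Agent.IM55.PL

theorem final : S_FIN := by
  have hIPA : S_IPA := i_IPA
  have hMEN : S_MEN := i_MEN hIPA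
  have hMPC : S_MPC := i_MPC hIPA
  have hSMU : S_SMU := i_SMU
  have hSUB : S_SUB := i_SUB
  have hCMP : S_CMP := i_CMP
  have hBAL : S_BAL := i_BAL (i_BLI hSMU hSUB hCMP)
  have hPTH : S_PTH := i_PTH hBAL hCMP hSMU hIPA
  have hLNK : S_LNK := i_LNK (i_STP i_CNF (i_FSB hSUB) i_ANT)
  have hTLS : S_TLS := i_TLS (i_MNP hMEN hIPA) (i_MNQ hMEN hMPC)
  have hCMB : S_CMB := i_CMB i_FEE
  have hHAV : S_HAV := i_HAV hCMB hLNK hPTH i_OUT hTLS i_ASM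
  exact i_FIN i_EMB i_IND hHAV

end Pool.Agent.IM55.CL
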