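import Pool.Agent.Work.MP_55ff09_co.CL.Defs

/-!
# MP_55ff09_co, block CL: statements with proofs

THEOREM. Let `V(H) = K ∪ L`, `K` a clique, `H[L]` a linear forest. For every `D` there is `t` such
that every finite graph of maximum degree at most `D` without induced minor `H` has no `K_t` minor.
(With Dujmovic, Esperet, Morin, Walczak, Wood 2022 this answers Q1 for all these `H`.)

Paper proof: note 4703. Every statement is a `Prop` `S_XXX`; prove
`theorem i_XXX (h : S_AAA) (h' : S_BBB) : S_XXX` in `CL/I_XXX.lean` (namespace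
`Pool.Agent.IM55.CL`); any other `S_...` of this file or of `PL/Stmts.lean` may be used as a
hypothesis, so nobody has to wait. `PL/Base.lean` and `Defs.lean` (one directory up) have small lemmas
(`conn_subset`, `exit_edge`, `conn_union`, `rng_conn`, `cmp`, `cmp_connected`, `subset_cmp`, ...).
`opN G S`: vertices outside `S` with a neighbour in `S`. `Anti G S X`: disjoint and no edges.
-/

set_option autoImplicit false

namespace Pool.Agent.IM55.CL

open SimpleGraph Pool.Agent.IM55 Pool.Agent.IM55.PL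

/-! ## Small sets and submodularity -/

/-- SMU (EASY): unions of small sets. Proof: the sets `A i` are disjoint and `opN G S ∪ opN G S'` has
less than `|I|` vertices, so some `A i`, `i ∈ I`, is disjoint from it. If `A i` meets `S` then
`A i ⊆ S` (`conn_subset`: a neighbour of a vertex of `S` is in `S` or in `opN G S`); but
`Anti G S (A j)` for some `j`, so `j ≠ i` and `Touch G (A i) (A j)` is a contradiction. So `A i` is
disjoint from `S` and from `opN G S`, i.e. `Anti G S (A i)`. Same for `S'`. -/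
def S_SMU : Prop := ∀ {V : Type} [Finite V] (G : SimpleGraph V) (I : Finset ℕ) (A : ℕ → Set V)
  (S S' : Set V), KM G I A → Sm G I A S → Sm G I A S' →
  (opN G S).ncard + (opN G S').ncard < I.card → Sm G I A (S ∪ S')

/-- SUB (EASY): submodularity. Proof: with `a = opN (S ∪ T) \ Y`, `b = opN (S ∩ T) \ Y`,
`c = opN S \ Y`, `d = opN T \ Y`: `a ∪ b ⊆ c ∪ d` and `a ∩ b ⊆ c ∩ d`, and
`|a| + |b| = |a ∪ b| + |a ∩ b|` (`Set.ncard_union_add_ncard_inter`). -/
def S_SUB : Prop := ∀ {V : Type} [Finite V] (G : SimpleGraph V) (S T Y : Set V),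
  (opN G (S ∪ T) \ Y).ncard + (opN G (S ∩ T) \ Y).ncard ≤
    (opN G S \ Y).ncard + (opN G T \ Y).ncard

/-- FSB (EASY): submodularity of `fo`. Proof: SUB with `Y = UA A D` for the first terms. For the
second ones: for every `d ∈ D`, if `A d` meets both `opN (S ∪ T)` and `opN (S ∩ T)` then it meets both
`opN S` and `opN T` (a vertex of `A d ∩ opN (S ∩ T)` is in neither `S` nor `T`); if it meets one of
them, it meets `opN S` or `opN T`. Sum over `d` (`Finset.card_filter`, `Finset.sum_le_sum`). -/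
def S_FSB : Prop := ∀ {V : Type} [Finite V] (G : SimpleGraph V) (A : ℕ → Set V) (D : Finset ℕ)
  (S T : Set V), Disjoint S (UA A D) → Disjoint T (UA A D) →
  fo G A D (S ∪ T) + fo G A D (S ∩ T) ≤ fo G A D S + fo G A D T

/-- CMP (EASY): the component. Proof: `R = cmp G S x`, `x ∈ X` (`cmp_connected`, `subset_cmp`,
`cmp_subset`); a vertex of `opN G R` in `S` would be in `R` (`cmp_adj`). -/
def S_CMP : Prop := ∀ {V : Type} (G : SimpleGraph V) (S X : Set V), (G.induce X).Connected →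
  X ⊆ S → ∃ R ⊆ S, (G.induce R).Connected ∧ X ⊆ R ∧ opN G R ⊆ opN G S

/-! ## The ball lemma -/

/-- BLI (MEDIUM): the ball lemma, induction. Call `R` *good* if it is connected, small, `X ⊆ R`,
`Y ⊆ opN G R`, `|opN G R| ≤ k`. Induction on `n`, all other variables general. If there is no good
set, `W = ∅`. Otherwise some small `R ⊇ X` is disjoint from `Y`; let `lam` be the minimum of
`|opN G R \ Y|` over all small `R ⊇ X` disjoint from `Y`; for good `R`:
`lam ≤ |opN G R \ Y| = |opN G R| - |Y| ≤ k - |Y|`.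
`n = 0`: the hypothesis for a good `R` gives `2 k ≤ (k - |Y|) + 2 |Y|`, so `|Y| = k`, `opN G R = Y`.
Two good sets `R`, `R'` are equal (`conn_subset`: `R'` is connected, meets `R` in `X`, and avoids
`Y = opN G R`). `W = R`.
`n + 1`: by CMP there is a CONNECTED small `R₁ ⊇ X` disjoint from `Y` with `|opN G R₁ \ Y| = lam`;
choose one, `Rs`, with `Rs.ncard` maximal. If `lam = 0`: `opN G Rs ⊆ Y`, every good `R` is inside `Rs`
(connected, avoids `Y`), `W = Rs`, `|opN G W| ≤ |Y| ≤ k`. If `lam > 0` fix `x ∈ opN G Rs \ Y`. Let `R`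
be good and `R' = R ∪ Rs`: connected (both contain `X`), small by SMU (`|opN G R| ≤ k`,
`|opN G Rs| ≤ lam + |Y| ≤ k`, `2 k < |I|`), `Y ⊆ opN G R'` (`Y` is disjoint from `Rs` and `R`),
`|opN G R' \ Y| + |opN G (R ∩ Rs) \ Y| ≤ |opN G R \ Y| + lam` by SUB, and `R ∩ Rs` is small, contains
`X`, is disjoint from `Y`, so `lam ≤ |opN G (R ∩ Rs) \ Y|` and `|opN G R'| ≤ |opN G R| ≤ k`: `R'` is
good. (1) If `x ∉ R'` then `x ∈ opN G R'`, so `R'` is good for `X`, `Y ∪ {x}`. Induction hypothesis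
for `X`, `Y ∪ {x}`, `n`: `|opN G R'' \ (Y ∪ {x})| ≥ |opN G R'' \ Y| - 1`, `|Y ∪ {x}| = |Y| + 1`
(`≤ k`, because `Y ∪ {x} ⊆ opN G R'`; if there is no such `R` take `W₁ = ∅`): `R' ⊆ W₁`.
(2) If `x ∈ R'` then `R'` is good for `Rs ∪ {x}` (connected), `Y`. Induction hypothesis for
`Rs ∪ {x}`, `Y`, `n`: for small `R'' ⊇ Rs ∪ {x}` disjoint from `Y` one has `|opN G R'' \ Y| ≥ lam + 1`
(otherwise the connected part of `R''` from CMP contradicts the choice of `Rs`), and
`2 k ≤ lam + 2 |Y| + (n + 1)` (hypothesis for `Rs`): `R' ⊆ W₂`. `W = W₁ ∪ W₂` is small by SMU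
(`2 (k 2 ^ n) < |I|`) and `|opN G W| ≤ k 2 ^ (n + 1)`. -/
def S_BLI : Prop := ∀ {V : Type} [Finite V] (G : SimpleGraph V) (I : Finset ℕ) (A : ℕ → Set V)
  (k n : ℕ) (X Y : Set V), KM G I A → 2 * k < I.card → k * 2 ^ n < I.card →
  (G.induce X).Connected → Y.ncard ≤ k →
  (∀ R, X ⊆ R → Disjoint R Y → Sm G I A R →
    2 * k ≤ (opN G R \ Y).ncard + 2 * Y.ncard + n) →
  ∃ W, Sm G I A W ∧ (opN G W).ncard ≤ k * 2 ^ n ∧
    ∀ R, (G.induce R).Connected → Sm G I A R → X ⊆ R → Y ⊆ opN G R → (opN G R).ncard ≤ k → R ⊆ W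

/-- BAL (EASY): the ball lemma. Proof: BLI with `X = {v}`, `Y = ∅`, `n = 2 k`; `2 k < |I|` because
`2 k ≤ k 4 ^ k` for `k ≥ 1`. -/
def S_BAL : Prop := ∀ {V : Type} [Finite V] (G : SimpleGraph V) (I : Finset ℕ) (A : ℕ → Set V)
  (k : ℕ) (v : V), KM G I A → k * 4 ^ k < I.card →
  ∃ W, Sm G I A W ∧ (opN G W).ncard ≤ k * 4 ^ k ∧
    ∀ R, (G.induce R).Connected → Sm G I A R → v ∈ R → (opN G R).ncard ≤ k → R ⊆ W

/-- PTH (MEDIUM): an induced path of middle cost. Proof: `i₀ ∈ I`, `v ∈ A i₀`, `W` from BAL,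
`Anti G W (A i)`, `x ∈ A i`, so `x ∉ W`. `A i₀ ∪ A i` is connected (`conn_union`), so by IPA there is an
induced path `w 0 = v, ..., w l = x`. (a) A small `S ⊇ rng w l` has `k < |opN G S|`: otherwise the
connected `R` with `rng w l ⊆ R ⊆ S`, `opN G R ⊆ opN G S` (CMP) is small, so `R ⊆ W`, but `x ∈ R`.
(b) `{w j}` is small and has `|opN G {w j}| ≤ D`: `clN G {w j}` has at most `D + 1 < |I|` vertices, so
it misses some `A i`. (c) Let `j` be the least number such that every small `S ⊇ rng w j` has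
`k < |opN G S|`; `j ≤ l` by (a), `j ≥ 1` by (b) and `D ≤ k`. There is a small `S ⊇ rng w (j - 1)` with
`|opN G S| ≤ k`; `S ∪ {w j}` is small (SMU), contains `rng w j`, and has
`|opN G (S ∪ {w j})| ≤ k + D`. Let `q` be the minimum of `|opN G S|` over small `S ⊇ rng w j`, attained
at `R`. The path is `w 0, ..., w j`. -/
def S_PTH : Prop := ∀ {V : Type} [Finite V] (G : SimpleGraph V) (D : ℕ) (I : Finset ℕ)
  (A : ℕ → Set V) (k : ℕ), DegLe G D → KM G I A → D ≤ k → k * 4 ^ k + k + 2 * D + 2 < I.card →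
  ∃ (w : ℕ → V) (l : ℕ) (R : Set V) (q : ℕ), IP G w l ∧ rng w l ⊆ R ∧ Sm G I A R ∧
    (opN G R).ncard = q ∧ k < q ∧ q ≤ k + D ∧ ∀ S, rng w l ⊆ S → Sm G I A S → q ≤ (opN G S).ncard

/-! ## Clean linking to the clique -/

/-- ANT (EASY-MEDIUM): `fo` and more contracted sets. Proof: `S' = S \ UA A E`. `R₀ ⊆ S'`. A vertex
of `opN G S' \ UA A E` is in `opN G S \ UA A D` and outside `UA A (E \ D)`. If `d ∈ D` and `A d` meets
`opN G S'` then `A d` meets `opN G S` (`A d` is disjoint from `S`). If `e ∈ E \ D` and `A e` meets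
`opN G S'` then `A e` meets `opN G S`: otherwise `A e` meets `S` (it has a vertex adjacent to a vertex
of `S`, so in `S`), so `A e ⊆ S` (`conn_subset`), and for every `d ∈ D` the set `A d` has a vertex
adjacent to `A e ⊆ S`, outside `S`, so it meets `opN G S`, and `|D| ≤ fo G A D S`. Choose
`x e ∈ A e ∩ opN G S`, different for different `e`, outside `UA A D`, inside `UA A (E \ D)`. So
`fo G A E S' ≤ |(opN G S \ UA A D) \ UA A (E \ D)| + |(opN G S \ UA A D) ∩ UA A (E \ D)| +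
|{d ∈ D : A d meets opN G S}|`. -/
def S_ANT : Prop := ∀ {V : Type} [Finite V] (G : SimpleGraph V) (I : Finset ℕ) (A : ℕ → Set V)
  (D E : Finset ℕ) (R₀ S : Set V), KM G I A → D ⊆ E → E ⊆ I → (∀ e ∈ E, Anti G R₀ (A e)) →
  R₀ ⊆ S → Disjoint S (UA A D) → fo G A D S < D.card →
  ∃ S', R₀ ⊆ S' ∧ Disjoint S' (UA A E) ∧ fo G A E S' ≤ fo G A D S

/-- CNF (EASY-MEDIUM): two families without conflict. Proof: for fixed `i` the sets `UA A (D j)`,
`j < 2 k + 2`, are pairwise disjoint, so at most `|X i| ≤ k` of them meet `X i`. Double counting: the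
number of ordered pairs `(i, j)` such that `X i` meets `UA A (D j)` is at most `k (2 k + 2)`, which is
less than `(2 k + 2) (2 k + 1) / 2`, the number of pairs `i < j`. -/
def S_CNF : Prop := ∀ {V : Type} [Finite V] (G : SimpleGraph V) (I : Finset ℕ) (A : ℕ → Set V)
  (k : ℕ) (D : ℕ → Finset ℕ) (X : ℕ → Set V), KM G I A → (∀ i < 2 * k + 2, D i ⊆ I) →
  (∀ i < 2 * k + 2, ∀ j < 2 * k + 2, i ≠ j → Disjoint (D i) (D j)) →
  (∀ i < 2 * k + 2, (X i).ncard ≤ k) →
  ∃ i < 2 * k + 2, ∃ j < 2 * k + 2, i ≠ j ∧ Disjoint (X i) (UA A (D j)) ∧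
    Disjoint (X j) (UA A (D i))

/-- STP (MEDIUM): one step of clean linking. Proof: suppose not. Choose pairwise disjoint
`D i ⊆ E`, `|D i| = N`, `i < 2 k + 2`, and `S i ⊇ R₀` disjoint from `UA A (D i)` with
`fo G A (D i) (S i) ≤ k`. CNF with `X i = opN G (S i) \ UA A (D i)` gives `i ≠ j` with `X i`, `X j`
disjoint from `UA A (D j)`, `UA A (D i)`. For `e ∈ D j` the set `A e` misses `opN G (S i)` (it misses
`X i` and `UA A (D i)`), so `A e ⊆ S i` or `Anti G (S i) (A e)`; in the first case every `A d`,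
`d ∈ D i`, meets `opN G (S i)` and `N ≤ k`, a contradiction. So `S i ∪ opN G (S i)` is disjoint from
`UA A (D j)`, and `S j ∪ opN G (S j)` from `UA A (D i)`. `F = D i ∪ D j`:
`fo G A F (S i) = fo G A (D i) (S i) ≤ k`, same for `j`; `opN G (S i ∩ S j)` is disjoint from
`UA A F` (it is contained in both `clN`), so `fo G A F (S i ∩ S j) = |opN G (S i ∩ S j)| ≥ q ≥ k + 1`,
because `S i ∩ S j` is small (`Anti` to `A e`, `e ∈ D j`). FSB: `fo G A F (S i ∪ S j) + 1 ≤ k`; ANT for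
`F ⊆ E` (`k < N ≤ |F|`) gives `S' ⊇ R₀` disjoint from `UA A E` with `fo G A E S' < k`, a
contradiction. -/
def S_STP : Prop := ∀ {V : Type} [Finite V] (G : SimpleGraph V) (I : Finset ℕ) (A : ℕ → Set V)
  (R₀ : Set V) (q k N : ℕ) (E : Finset ℕ), KM G I A → E ⊆ I → (∀ e ∈ E, Anti G R₀ (A e)) →
  (∀ S, R₀ ⊆ S → Sm G I A S → q ≤ (opN G S).ncard) → k < q → k < N →
  (2 * k + 2) * N ≤ E.card → (∀ S, R₀ ⊆ S → Disjoint S (UA A E) → k ≤ fo G A E S) →
  ∃ D ⊆ E, N ≤ D.card ∧ ∀ S, R₀ ⊆ S → Disjoint S (UA A D) → k + 1 ≤ fo G A D S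

/-- LNK (EASY): clean linking. Proof: `N q = n + q`, `N j = (2 j + 2) N (j + 1)` for `j < q` (so
`N j ≥ q`); `M = N 0`. By induction on `j ≤ q` (STP with `k = j`): there is `D ⊆ E` with
`N j ≤ |D|` and `j ≤ fo G A D S` for all `S ⊇ R₀` disjoint from `UA A D`. (E.g.
`N j = (2 q + 2) ^ (q - j) (n + q)` is enough.) -/
def S_LNK : Prop := ∀ n q : ℕ, ∃ M : ℕ, ∀ {V : Type} [Finite V] (G : SimpleGraph V)
  (I : Finset ℕ) (A : ℕ → Set V) (R₀ : Set V) (E : Finset ℕ), KM G I A → E ⊆ I →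
  (∀ e ∈ E, Anti G R₀ (A e)) → (∀ S, R₀ ⊆ S → Sm G I A S → q ≤ (opN G S).ncard) → M ≤ E.card →
  ∃ D ⊆ E, n ≤ D.card ∧ ∀ S, R₀ ⊆ S → Disjoint S (UA A D) → q ≤ fo G A D S

/-- MNQ (MEDIUM): Menger with contracted branch sets. Proof: `r d ∈ A d` for `d ∈ D`; `κ x = r d` if
`x ∈ A d`, `d ∈ D`, and `κ x = x` otherwise. `G'` on `V`: `a ~ b` iff `a ≠ b` and `κ x = a`, `κ y = b`
for some adjacent `x`, `y`. MEN in `G'` with `U' = κ '' R₀ᶜ`, `A' = opN G R₀` (outside `UA A D`),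
`B' = {r d | d ∈ D}`, `m = q`. (1) If `T` meets all connectors, `|T| < q`: let `C` be the set of
`x ∉ R₀ ∪ UA A D ∪ T` contained in a `G'`-connected subset of `U' \ (T ∪ B')` which meets `A'`;
`S = R₀ ∪ C`. A vertex `x ∈ opN G S` outside `UA A D` is in `T` (if it is adjacent to `R₀`, it is in
`A'`, and `{x}` is connected; if it is adjacent to `C`, add it to the connected set). If `x ∈ A d` is
adjacent to `C` (not to `R₀`) then `r d ∈ T`, otherwise the connected set plus `r d` is a connector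
avoiding `T`. So `fo G A D S ≤ |T| < q`. (2) Otherwise there are `q` disjoint connectors; by IPA each
contains an induced `G'`-path `w c 0, ..., w c (l c)` with only the first vertex in `A'`, only the last
one in `B'`. `|A'| = q`, so `c ↦ w c 0` is a bijection onto `A'`; for `z = w c 0`, `w c (l c) = r d`:
`X z = {w c i | i < l c} ∪ A d` (`l c ≥ 1`). It is `G`-connected, the `X z` are disjoint (the `d` are
different), disjoint from `R₀`, and touch each other because the `A d` do. -/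
def S_MNQ : Prop := ∀ {V : Type} [Finite V] (G : SimpleGraph V) (I : Finset ℕ) (A : ℕ → Set V)
  (R₀ : Set V) (D : Finset ℕ) (q : ℕ), KM G I A → D ⊆ I → (∀ d ∈ D, Anti G R₀ (A d)) →
  (opN G R₀).ncard = q → (∀ S, R₀ ⊆ S → Disjoint S (UA A D) → q ≤ fo G A D S) →
  ∃ X : V → Set V, ∀ z ∈ opN G R₀, (G.induce (X z)).Connected ∧ z ∈ X z ∧ Disjoint (X z) R₀ ∧
    ∀ z' ∈ opN G R₀, z ≠ z' → Disjoint (X z) (X z') ∧ Touch G (X z) (X z')

/-- MNP (MEDIUM): Menger inside `R₀`. Proof: MEN in `G` with `U = (R₀ ∪ opN G R₀) \ P`,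
`A = opN G P`, `B = opN G R₀`, `m = q = |opN G R₀|`. (1) If `T ⊆ U`, `|T| < q`, meets all connectors:
`C` = the vertices contained in a connected subset of `U \ T` which meets `opN G P`; no vertex of `C`
is in `opN G R₀`, so `C ⊆ R₀`; `S = P ∪ C ⊆ R₀` is small (subset), and `opN G S ⊆ T`: let `x ∉ S` be
adjacent to `S`, `x ∉ T`; `x` is in `R₀ ∪ opN G R₀` and not in `P`, so in `U`; if it is adjacent to `P`,
it is in `opN G P \ T ⊆ C`; if it is adjacent to `C`, it is in `C`. So `|opN G S| < q`, a contradiction.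
(2) `q` disjoint connectors, by IPA induced paths with only the first vertex in `opN G P`, only the
last one in `opN G R₀`; the last vertices are different, so they are all of `opN G R₀`. `M z` = vertex
set of the path with last vertex `z`, `u z` its first vertex. -/
def S_MNP : Prop := ∀ {V : Type} [Finite V] (G : SimpleGraph V) (I : Finset ℕ) (A : ℕ → Set V)
  (P R₀ : Set V) (q : ℕ), P ⊆ R₀ → Sm G I A R₀ → (opN G R₀).ncard = q →
  (∀ S, P ⊆ S → Sm G I A S → q ≤ (opN G S).ncard) →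
  ∃ (M : V → Set V) (u : V → V), ∀ z ∈ opN G R₀, (G.induce (M z)).Connected ∧ z ∈ M z ∧
    M z ⊆ R₀ ∪ {z} ∧ Disjoint (M z) P ∧ u z ∈ M z ∧ (∀ x ∈ M z, x ∈ opN G P ↔ x = u z) ∧
    ∀ z' ∈ opN G R₀, z ≠ z' → Disjoint (M z) (M z')

/-- TLS (EASY-MEDIUM): tails. Proof: `T z = M z ∪ X z` from MNP and MNQ. Connected (`z` is in both).
`X z ∩ opN G R₀ = {z}` (the `X z` are disjoint and `z' ∈ X z'`), `M z \ {z} ⊆ R₀`, `X z` is disjoint
from `R₀`, so the `T z` are pairwise disjoint and disjoint from `P ⊆ R₀`; they touch because the `X z`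
do. A vertex of `X z` adjacent to `P ⊆ R₀` is in `opN G R₀`, so it is `z ∈ M z`, and it is in
`opN G P`, so it is `u z`. Hence `p ∈ P` touches `T z` iff `p` is adjacent to `u z`: at least one, at
most `D` such `p`. -/
def S_TLS : Prop := ∀ {V : Type} [Finite V] (G : SimpleGraph V) (Δ : ℕ) (I : Finset ℕ)
  (A : ℕ → Set V) (P R₀ : Set V) (D : Finset ℕ) (q : ℕ), DegLe G Δ → KM G I A → P ⊆ R₀ →
  Sm G I A R₀ → (opN G R₀).ncard = q → (∀ S, P ⊆ S → Sm G I A S → q ≤ (opN G S).ncard) →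
  D ⊆ I → (∀ d ∈ D, Anti G R₀ (A d)) →
  (∀ S, R₀ ⊆ S → Disjoint S (UA A D) → q ≤ fo G A D S) →
  ∃ T : V → Set V, ∀ z ∈ opN G R₀, (G.induce (T z)).Connected ∧ Disjoint (T z) P ∧
    {p | p ∈ P ∧ Touch G {p} (T z)}.Nonempty ∧ {p | p ∈ P ∧ Touch G {p} (T z)}.ncard ≤ Δ ∧
    ∀ z' ∈ opN G R₀, z ≠ z' → Disjoint (T z) (T z') ∧ Touch G (T z) (T z')

/-! ## Local feet and assembly -/

/-- FEE (MEDIUM): local feet (pure combinatorics). Induction on `d`, `s` and `D` fixed. `d = 0`: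
`q₀ = 1` (a nonempty set with at most 0 elements). Step: let `N = q₀(d) + 1`,
`q₀(d + 1) = (s + 1) (N + D)`. Cut points `x 0 = 0`, `x (i + 1)` = least `x` such that at least `N` of
the sets `F c`, `c < q`, meet `[x i, x)`; then at most `N + D` of them meet `[x i, x (i + 1))` (one more
position adds at most `D`), so after `i ≤ s` intervals at least `N` of the sets have no element below
`x i`, and `x (i + 1)` exists. (1) If for some `i < s` at least `q₀(d)` of the sets `F c` meet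
`J = [x i, x (i + 1))` and are not contained in it, apply the induction hypothesis to the sets
`F c ∩ J` (at most `d` elements) of these `c`; `[α, β]` is the intersection of `J` with the interval of
the induction hypothesis. (2) Otherwise every interval `[x i, x (i + 1))`, `i < s`, contains some
nonempty `F (c i)`; `α = 0`, `β` large. -/
def S_FEE : Prop := ∀ D s d : ℕ, ∃ q₀ : ℕ, ∀ q ≥ q₀, ∀ F : ℕ → Finset ℕ,
  (∀ c < q, (F c).Nonempty ∧ (F c).card ≤ d) →
  (∀ p, ((Finset.range q).filter fun c => p ∈ F c).card ≤ D) →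
  ∃ (α β : ℕ) (c : ℕ → ℕ), (∀ j < s, c j < q ∧ ∃ x ∈ F (c j), α ≤ x ∧ x ≤ β) ∧
    ∀ j < s, ∀ j' < s, j < j' → ∀ x ∈ F (c j), ∀ y ∈ F (c j'), α ≤ x → x ≤ β → α ≤ y → y ≤ β → x < y

/-- CMB (EASY-MEDIUM): from tails to a comb. Index the `q` vertices of `opN G R₀` as `z 0, ...,
z (q - 1)`; `F c = {p ≤ l | w p touches T (z c)}` (nonempty, at most `Δ` elements since `w` is
injective on `[0, l]`; `w p` is adjacent to at most `Δ` of the disjoint sets `T (z c)`). FEE (with
`D = Δ`, `d = Δ`) gives `α`, `β`, `c`; the comb: `w' i = w (α + i)`, `l' = min β l - α`,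
`T' j = T (z (c j))`. For `s = 0` take `l' = 0`. The `c j` are different because their feet in
`[α, β]` are nonempty and ordered. -/
def S_CMB : Prop := ∀ Δ s : ℕ, ∃ q₀ : ℕ, ∀ {V : Type} [Finite V] (G : SimpleGraph V) (w : ℕ → V)
  (l : ℕ) (Z : Set V) (T : V → Set V), DegLe G Δ → IP G w l → q₀ ≤ Z.ncard →
  (∀ z ∈ Z, (G.induce (T z)).Connected ∧ Disjoint (T z) (rng w l) ∧
    {p | p ∈ rng w l ∧ Touch G {p} (T z)}.Nonempty ∧
    {p | p ∈ rng w l ∧ Touch G {p} (T z)}.ncard ≤ Δ ∧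
    ∀ z' ∈ Z, z ≠ z' → Disjoint (T z) (T z') ∧ Touch G (T z) (T z')) →
  ∃ (w' : ℕ → V) (l' : ℕ) (T' : ℕ → Set V), Comb G s w' l' T'

/-- ASM (MEDIUM): assembly. Proof: tails `T (x a + i)`, `x < l`, `i < a`. `b 0 = 0`, `b x` = least
`p ≤ l'` touched by `T (x a)` for `1 ≤ x < l`, `b l = l' + 1`; all `p` touched by `T (x a + i)` satisfy
`b x ≤ p < b (x + 1)` (order of the feet), so `b` is strictly increasing. Branch set of `inr x`:
`{w p | b x ≤ p < b (x + 1)}` (`ip_seg_conn`); of `inl i`: the union of the `T (x a + i)` with `x < l`,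
`E i x` (nonempty union of connected sets which touch each other pairwise). Two path segments are
joined iff `x`, `y` are consecutive (`IP.ind`); two unions are joined (`Touch` and disjoint gives an
edge); the union of `i` is joined to the segment `x` iff `E i x`. -/
def S_ASM : Prop := ∀ {V : Type} [Finite V] (G : SimpleGraph V) (a l l' : ℕ) (E : ℕ → ℕ → Prop)
  (w : ℕ → V) (T : ℕ → Set V), 1 ≤ a → 1 ≤ l → (∀ i < a, ∃ x < l, E i x) →
  Comb G (l * a) w l' T → IsInducedMinor (HP a l E) G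

/-- EMB (EASY-MEDIUM): normal form of `H`. Proof: `a = |K| + 1`, `K` numbered by `i < |K|`;
`e' v = e v - min e`, `L = max e' + 1`, `l = L + 1 + a`,
`E i x` iff `x = L + 1 + i` or (`x < L` and there are `u ∈ K` with number `i` and `v ∉ K` with
`e' v = x`, `H.Adj u v`). `f u = inl (number of u)` for `u ∈ K`, `f v = inr (e' v)` for `v ∉ K`. -/
def S_EMB : Prop := ∀ (m : ℕ) (H : SimpleGraph (Fin m)) (K : Set (Fin m)) (e : Fin m → ℤ),
  (∀ u ∈ K, ∀ v ∈ K, u ≠ v → H.Adj u v) →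
  (∀ u ∉ K, ∀ v ∉ K, u ≠ v → e u ≠ e v ∧ (H.Adj u v ↔ |e u - e v| = 1)) →
  ∃ (a l : ℕ) (E : ℕ → ℕ → Prop) (f : Fin m → Fin a ⊕ Fin l), 1 ≤ a ∧ 1 ≤ l ∧
    (∀ i < a, ∃ x < l, E i x) ∧ Function.Injective f ∧
    ∀ u v, H.Adj u v ↔ (HP a l E).Adj (f u) (f v)

/-- IND (EASY): induced subgraphs. Proof: branch sets `X (f u)`. -/
def S_IND : Prop := ∀ {W W' V : Type} (H : SimpleGraph W) (H' : SimpleGraph W') (G : SimpleGraph V)
  (f : W → W'), Function.Injective f → (∀ u v, H.Adj u v ↔ H'.Adj (f u) (f v)) →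
  IsInducedMinor H' G → IsInducedMinor H G

/-- OUT (EASY): most branch sets are outside of a small set. Proof: the branch sets `A i`, `i ∈ I`,
which meet `opN G R` are at most `|opN G R|` many (disjoint sets). Any other one is inside `R` or
`Anti` to `R`; inside is impossible since some `A j` is `Anti` to `R` and touches it. -/
def S_OUT : Prop := ∀ {V : Type} [Finite V] (G : SimpleGraph V) (I : Finset ℕ) (A : ℕ → Set V)
  (R : Set V), KM G I A → Sm G I A R →
  ∃ E ⊆ I, I.card ≤ E.card + (opN G R).ncard ∧ ∀ e ∈ E, Anti G R (A e)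

/-- HAV (EASY-MEDIUM): the theorem for `HP`. Proof: `s = l a`; `q₀` from CMB; `k = max D q₀`;
`M = ` maximum over `q ≤ k + D` of the numbers `M (0, q)` of LNK;
`t = k 4 ^ k + 2 k + 3 D + 3 + M`. A `K_t` model gives `KM G (range t) A`. PTH gives `w`, `l`, `R`, `q`;
OUT gives `E` with `|E| ≥ t - q ≥ M`; LNK (hypothesis: a small `S ⊇ R` contains `rng w l`) gives
`D' ⊆ E`; TLS with `P = rng w l`; CMB with `Z = opN G R`, `q₀ ≤ k < q`; ASM. -/
def S_HAV : Prop := ∀ (D a l : ℕ), 1 ≤ a → 1 ≤ l → ∃ t : ℕ, ∀ {V : Type} [Finite V]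
  (G : SimpleGraph V), DegLe G D → IsInducedMinor (⊤ : SimpleGraph (Fin t)) G →
  ∀ E : ℕ → ℕ → Prop, (∀ i < a, ∃ x < l, E i x) → IsInducedMinor (HP a l E) G

/-- FIN (EASY): the theorem, from EMB, IND and HAV. -/
def S_FIN : Prop := ∀ (m : ℕ) (H : SimpleGraph (Fin m)) (K : Set (Fin m)) (e : Fin m → ℤ),
  (∀ u ∈ K, ∀ v ∈ K, u ≠ v → H.Adj u v) →
  (∀ u ∉ K, ∀ v ∉ K, u ≠ v → e u ≠ e v ∧ (H.Adj u v ↔ |e u - e v| = 1)) →
  ∀ D : ℕ, ∃ t : ℕ, ∀ {V : Type} [Finite V] (G : SimpleGraph V), DegLe G D →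
    ¬ IsInducedMinor H G → ¬ IsInducedMinor (⊤ : SimpleGraph (Fin t)) G

end Pool.Agent.IM55.CL
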